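import Pool.Agent.T2H18.TW.NilB

/-!
# Powers in a fixed dimension: the general statement
-/

set_option autoImplicit false

namespace Pool.Agent.T2H18.TW

open Pool.Agent.TH66.SG Pool.Agent.H771R2.SingerDS

lemma exists_odd_prime {m : ℕ} (hm : 3 ≤ m) : 4 ∣ m ∨ ∃ l : ℕ, l.Prime ∧ l ≠ 2 ∧ l ∣ m := by
  by_cases h4 : 4 ∣ m
  · exact Or.inl h4
  right
  obtain ⟨x, hx, hxm⟩ : ∃ x : ℕ, ¬ 2 ∣ x ∧ (m = x ∨ m = 2 * x) := by
    by_cases h : 2 ∣ m
    · obtain ⟨y, rfl⟩ := h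
      refine ⟨y, fun hy => h4 ?_, Or.inr rfl⟩
      obtain ⟨z, rfl⟩ := hy
      exact ⟨z, by ring⟩
    · exact ⟨m, h, Or.inl rfl⟩
  have hx1 : x ≠ 1 := by omega
  refine ⟨x.minFac, Nat.minFac_prime hx1, fun h => hx (h ▸ Nat.minFac_dvd x), ?_⟩
  rcases hxm with h | h
  · rw [h]
    exact Nat.minFac_dvd x
  · rw [h]
    exact (Nat.minFac_dvd x).mul_left _

lemma odd_of_cop {t m : ℕ} (h : t.Coprime (2 * m)) : Odd t :=
  Nat.coprime_two_right.mp (Nat.Coprime.coprime_mul_right_right h)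

lemma not_dvd_of_cop {t m ℓ : ℕ} (hℓ : ℓ.Prime) (hm : ℓ ∣ m) (h : t.Coprime (2 * m)) : ¬ ℓ ∣ t := by
  intro hd
  have h1 : ℓ ∣ Nat.gcd t (2 * m) := Nat.dvd_gcd hd (hm.mul_left _)
  rw [h] at h1
  exact hℓ.one_lt.ne' (Nat.dvd_one.1 h1)

/-- nilpotent groups, `m` even or `n` a square -/
theorem nil {n m : ℕ} (hn : 2 ≤ n) (hpp : ¬ IsPrimePow n) (hm : 3 ≤ m)
    (h : Even m ∨ IsSquare n) (B : ℕ) :
    ∃ i : ℕ, B < i ∧ Odd i ∧ ∀ t r : ℕ, t.Coprime (2 * m) → Odd r →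
      ¬ NilSinger (n ^ (i * t)) (m * r) := by
  rcases exists_odd_prime hm with h4 | ⟨ℓ, hℓ, hℓ2, hℓm⟩
  · obtain ⟨i, hi, hio, H⟩ := towerA hn hpp h4 hm B
    exact ⟨i, hi, hio, fun t r ht hr => H t r (odd_of_cop ht) hr⟩
  · rcases Nat.even_or_odd m with he | ho
    · by_cases h4 : 4 ∣ m
      · obtain ⟨i, hi, hio, H⟩ := towerA hn hpp h4 hm B
        exact ⟨i, hi, hio, fun t r ht hr => H t r (odd_of_cop ht) hr⟩
      · obtain ⟨E₀, hE₀⟩ := he.two_dvd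
        have hE₀o : Odd E₀ := by
          by_contra hc
          rw [Nat.not_odd_iff_even] at hc
          obtain ⟨c, hc⟩ := hc.two_dvd
          exact h4 ⟨c, by rw [hE₀, hc]; ring⟩
        have hℓE : ℓ ∣ E₀ := by
          rw [hE₀] at hℓm
          rcases hℓ.dvd_mul.1 hℓm with h5 | h5
          · exact absurd ((Nat.prime_dvd_prime_iff_eq hℓ Nat.prime_two).1 h5) hℓ2
          · exact h5
        obtain ⟨i, hi, hio, H⟩ := towerB (e := 1) (E₀ := E₀) (m := m) hn hpp le_rfl (by omega)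
          hE₀o.pos hm hE₀o hℓ hℓE (by
            intro h5
            exact hℓ.one_lt.ne' (Nat.dvd_one.1 h5)) B
        refine ⟨i, hi, hio, fun t r ht hr => ?_⟩
        have h6 := H t r (odd_of_cop ht) (not_dvd_of_cop hℓ hℓm ht) hr
        rwa [pow_one] at h6
    · obtain ⟨N, hN⟩ : IsSquare n := by
        rcases h with h | h
        · exact absurd h (Nat.not_even_iff_odd.2 ho)
        · exact h
      have hN' : n = N ^ 2 := by rw [hN, sq]
      have hN2 : 2 ≤ N := by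
        by_contra hcon
        have : N ≤ 1 := by omega
        have : N * N ≤ 1 * 1 := Nat.mul_le_mul this this
        omega
      have hNp : ¬ IsPrimePow N := fun hcon => hpp (hN' ▸ hcon.pow (by norm_num))
      obtain ⟨i, hi, hio, H⟩ := towerB (N := N) (e := 2) (E₀ := m) (m := m) hN2 hNp (by norm_num)
        rfl (by omega) hm ho hℓ hℓm (by
          intro h5
          exact hℓ2 ((Nat.prime_dvd_prime_iff_eq hℓ Nat.prime_two).1 h5)) B
      refine ⟨i, hi, hio, fun t r ht hr => ?_⟩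
      have h6 := H t r (odd_of_cop ht) (not_dvd_of_cop hℓ hℓm ht) hr
      rwa [← hN'] at h6

/-- all finite groups, `m` odd and `n` not a square -/
theorem fin {n m : ℕ} (hn : 2 ≤ n) (hpp : ¬ IsPrimePow n) (hm : 3 ≤ m)
    (ho : Odd m) (hsq : ¬ IsSquare n) (B : ℕ) :
    ∃ i : ℕ, B < i ∧ Odd i ∧ ∀ t r : ℕ, t.Coprime (2 * m) → Odd r →
      ¬ HasSinger (n ^ (i * t)) (m * r) := by
  have hℓ : m.minFac.Prime := Nat.minFac_prime (by omega)
  have hℓm : m.minFac ∣ m := Nat.minFac_dvd m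
  have hℓ2 : m.minFac ≠ 2 := by
    intro h
    rw [h] at hℓm
    obtain ⟨c, hc⟩ := hℓm
    rw [hc] at ho
    exact (Nat.not_odd_iff_even.2 (even_two_mul c)) ho
  obtain ⟨i, hi, hio, H⟩ := tower hn hpp hsq hℓ hℓ2 B
  exact ⟨i, hi, hio, fun t r ht hr =>
    H t (m * r) (odd_of_cop ht) (not_dvd_of_cop hℓ hℓm ht) (ho.mul hr) (hℓm.mul_right _)⟩

end Pool.Agent.T2H18.TW
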