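import Pool.Agent.T2H18.TW.Comb
import Pool.Agent.TH66.SG.Gal4

/-!
# An automorphism of the algebraic closure with prescribed action on the `2`-power roots of primes
and moving an `ℓ`-th root of `n₀` and a root of unity of order `ℓ ^ (S + 2)`
-/

set_option autoImplicit false

namespace Pool.Agent.T2H18.TW

open Pool.Agent.W688.VT

section gen

variable {A : Type} [Field A] [CharZero A]

/-- the 2-part -/
lemma two_part [IsAlgClosed A] [Algebra.IsAlgebraic ℚ A] {s M : ℕ} (hs : 3 ≤ s) (hM : Odd M)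
    {k : ℕ} (p : Fin k → ℕ) (hp : ∀ i, (p i).Prime) (hinj : Function.Injective p)
    (x : Fin k → ℕ) :
    ∃ (σ : A ≃ₐ[ℚ] A) (ζ : A) (R : Fin k → A), IsPrimitiveRoot ζ (2 ^ (s + 1) * M) ∧
      σ ζ = -ζ ∧ (∀ i, R i ^ 2 ^ s = (p i : A)) ∧
      ∀ i, σ (R i) = (ζ ^ (2 * M)) ^ (2 * x i) * R i := by
  obtain ⟨K, hK1, hK2, hK3, ι, Z, R, S, ρ, hZ, hsq, hρ, hR, hRp, hSp⟩ :=
    Pool.Agent.TH66.SG.exists_field s M hM.pos.ne' p hp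
  obtain ⟨σ, hσZ, hσR, _⟩ := Pool.Agent.TH66.SG.step3 ι hs hM hZ hsq p hp hinj R S ρ hρ hR hRp
    hSp x
  have : IsAlgClosure ℚ A := ⟨inferInstance, inferInstance⟩
  have hN : Normal ℚ A := IsAlgClosure.normal ℚ A
  let j : K →ₐ[ℚ] A := IsAlgClosed.lift
  let _ : Algebra K A := j.toRingHom.toAlgebra
  have : IsScalarTower ℚ K A := IsScalarTower.of_algebraMap_eq (fun x => (j.commutes x).symm)
  have hj : ∀ y : K, algebraMap K A y = j y := fun y => rfl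
  have hc : ∀ y : K, (σ.liftNormal A) (j y) = j (σ y) := by
    intro y
    have := σ.liftNormal_commutes A y
    rwa [hj, hj] at this
  refine ⟨σ.liftNormal A, j Z, fun i => j (R i), hZ.map_of_injective j.injective, ?_, ?_, ?_⟩
  · rw [hc, hσZ, map_neg]
  · intro i
    rw [← map_pow, hRp, map_natCast]
  · intro i
    rw [hc, hσR, map_mul, map_pow, map_pow]

/-- the `ℓ`-part -/
lemma l_part [IsAlgClosed A] [Algebra.IsAlgebraic ℚ A] (e S ℓ n0 : ℕ) (hℓ : ℓ.Prime)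
    (hℓ2 : Odd ℓ) (hn0 : 0 < n0) (hnp : ∀ s : ℚ, s ^ ℓ ≠ n0) (ζ : A)
    (hζ : IsPrimitiveRoot ζ (2 ^ (e + 1) * ℓ ^ (S + 1))) :
    ∃ (τ : A ≃ₐ[ℚ] A) (w η : A), w ^ ℓ = n0 ∧ IsPrimitiveRoot η (ℓ ^ (S + 2)) ∧
      τ (ζ ^ 2) = ζ ^ 2 ∧ τ w ≠ w ∧ τ η ≠ η := by
  have hℓpos := hℓ.pos
  obtain ⟨ι, c, hc⟩ := exConj (A := A)
  have hNl : NeZero ℓ := ⟨hℓ.ne_zero⟩
  have hξl : IsPrimitiveRoot (ζ ^ (2 ^ (e + 1) * ℓ ^ S)) ℓ :=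
    hζ.pow (by positivity) (by ring)
  obtain ⟨w, hw, hcw⟩ := exReal ι c hc ℓ _ hξl n0 hn0
  have hcζ := conjPrim ι c hc (2 ^ (e + 1) * ℓ ^ (S + 1)) (by positivity) ζ hζ
  obtain ⟨τ3, h31, h32⟩ := step3 e (ℓ ^ (S + 1)) ℓ n0 (by positivity) hℓ2
    (dvd_pow_self ℓ (by omega)) hn0 hnp ζ w hζ c hcζ hw hcw
  -- the cyclotomic part
  obtain ⟨Y, hY⟩ := exPrim (A := A) (2 ^ (e + 1) * ℓ ^ (S + 2)) (by positivity)
  obtain ⟨τ4, h4⟩ := exAut Y (2 ^ (e + 1) * ℓ ^ (S + 2)) (1 + 2 ^ (e + 1) * ℓ ^ (S + 1))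
    (by positivity) hY (by
      rw [Nat.coprime_mul_iff_right]
      constructor
      · apply Nat.Coprime.pow_right
        rw [Nat.coprime_two_right]
        have : Even (2 ^ (e + 1) * ℓ ^ (S + 1)) :=
          (Nat.even_pow.mpr ⟨even_two, by omega⟩).mul_right _
        exact this.one_add
      · apply Nat.Coprime.pow_right
        rw [show 2 ^ (e + 1) * ℓ ^ (S + 1) = (2 ^ (e + 1) * ℓ ^ S) * ℓ by ring]
        simp)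
  set η := Y ^ 2 ^ (e + 1) with hη
  have hηp : IsPrimitiveRoot η (ℓ ^ (S + 2)) := hY.pow (by positivity) rfl
  have hNz : NeZero (2 ^ (e + 1) * ℓ ^ (S + 2)) := ⟨by positivity⟩
  obtain ⟨a, _, ha⟩ : ∃ a < 2 ^ (e + 1) * ℓ ^ (S + 2), Y ^ a = ζ := by
    apply hY.eq_pow_of_pow_eq_one
    rw [show 2 ^ (e + 1) * ℓ ^ (S + 2) = (2 ^ (e + 1) * ℓ ^ (S + 1)) * ℓ by ring, pow_mul,
      hζ.pow_eq_one, one_pow]
  have h4ζ : τ4 ζ = ζ := by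
    rw [← ha, map_pow, h4, ← pow_mul, mul_comm, pow_mul, ha, pow_add, pow_one, hζ.pow_eq_one,
      mul_one]
  have h4η : τ4 η ≠ η := by
    rw [hη, map_pow, h4, ← pow_mul, mul_comm, pow_mul, ← hη, pow_add, pow_one]
    intro h
    have hη0 : η ≠ 0 := hηp.ne_zero (by positivity)
    have h5 : η ^ (2 ^ (e + 1) * ℓ ^ (S + 1)) = 1 :=
      mul_left_cancel₀ hη0 (by rw [h, mul_one])
    have h6 := hηp.dvd_of_pow_eq_one _ h5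
    rw [show ℓ ^ (S + 2) = ℓ ^ (S + 1) * ℓ by ring, mul_comm (2 ^ (e + 1))] at h6
    have h7 := Nat.dvd_of_mul_dvd_mul_left (pow_pos hℓpos (S + 1)) h6
    have h8 := hℓ.dvd_of_dvd_pow h7
    rw [Nat.prime_dvd_prime_iff_eq hℓ Nat.prime_two] at h8
    rw [h8] at hℓ2
    exact absurd hℓ2 (by decide)
  by_cases c1 : τ3 η = η
  · by_cases c2 : τ4 w = w
    · refine ⟨τ3.trans τ4, w, η, hw, hηp, ?_, ?_, ?_⟩
      · change τ4 (τ3 (ζ ^ 2)) = ζ ^ 2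
        rw [h31, map_pow, h4ζ]
      · change τ4 (τ3 w) ≠ w
        intro h
        apply h32
        apply τ4.injective
        rw [h, c2]
      · change τ4 (τ3 η) ≠ η
        rw [c1]
        exact h4η
    · exact ⟨τ4, w, η, hw, hηp, by rw [map_pow, h4ζ], c2, h4η⟩
  · exact ⟨τ3, w, η, hw, hηp, h31, h32, c1⟩

/-- the action on a root, general form -/
lemma act' (ξ : A) (M : ℕ) [NeZero M] (hξ : IsPrimitiveRoot ξ M) (K : ℕ) (hK : K ∣ M)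
    (x : A) (hx : x ≠ 0) (τ : A ≃ₐ[ℚ] A) (hxm : τ (x ^ K) = x ^ K) :
    ∃ (θ : A) (r : ℕ), τ x = θ * x ∧ θ ^ K = 1 ∧ ξ ^ r = θ := by
  have h1 : (τ x / x) ^ K = 1 := by
    rw [div_pow, ← map_pow, hxm, div_self]
    exact pow_ne_zero _ hx
  have h2 : (τ x / x) ^ M = 1 := by
    obtain ⟨c, rfl⟩ := hK
    rw [pow_mul, h1, one_pow]
  obtain ⟨i, _, hi⟩ := hξ.eq_pow_of_pow_eq_one h2
  exact ⟨τ x / x, i, (div_mul_cancel₀ _ hx).symm, h1, hi⟩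

/-- both parts -/
lemma both [IsAlgClosed A] [Algebra.IsAlgebraic ℚ A] {s S ℓ n0 : ℕ} (hs : 3 ≤ s)
    (hℓ : ℓ.Prime) (hℓ2 : Odd ℓ) (hn0 : 0 < n0) (hnp : ∀ s : ℚ, s ^ ℓ ≠ n0)
    {k : ℕ} (p : Fin k → ℕ) (hp : ∀ i, (p i).Prime) (hinj : Function.Injective p)
    (x : Fin k → ℕ) :
    ∃ (ρ : A ≃ₐ[ℚ] A) (ζ w η : A) (R : Fin k → A) (u v : ℕ),
      IsPrimitiveRoot ζ (2 ^ (s + 1) * ℓ ^ (S + 1)) ∧ w ^ ℓ = n0 ∧
      IsPrimitiveRoot η (ℓ ^ (S + 2)) ∧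
      ρ ζ = -ζ ∧ (∀ i, R i ^ 2 ^ s = (p i : A)) ∧
      (∀ i, ρ (R i) = (ζ ^ (2 * ℓ ^ (S + 1))) ^ (2 * x i) * R i) ∧
      ρ w = ζ ^ u * w ∧ ζ ^ u ≠ 1 ∧ ρ η = ζ ^ v * η ∧ ζ ^ v ≠ 1 := by
  have hℓpos := hℓ.pos
  set M := ℓ ^ (S + 1) with hMd
  have hM : Odd M := hℓ2.pow
  have hMpos := hM.pos
  obtain ⟨σ, ζ, R, hζ, hσζ, hRp, hσR⟩ := two_part (A := A) hs hM p hp hinj x
  obtain ⟨τ, w, η, hw, hη, hτζ, hτw, hτη⟩ := l_part (A := A) s S ℓ n0 hℓ hℓ2 hn0 hnp ζ hζ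
  have hNe : NeZero (2 ^ s * M) := ⟨by positivity⟩
  have hξ : IsPrimitiveRoot (ζ ^ 2) (2 ^ s * M) :=
    hζ.pow (by positivity) (show 2 ^ (s + 1) * M = 2 * (2 ^ s * M) by ring)
  have hσξ : σ (ζ ^ 2) = ζ ^ 2 := by rw [map_pow, hσζ]; ring
  have hfix : ∀ (f : A ≃ₐ[ℚ] A), f (ζ ^ 2) = ζ ^ 2 → ∀ r : ℕ, f ((ζ ^ 2) ^ r) = (ζ ^ 2) ^ r := by
    intro f hf r
    rw [map_pow, hf]
  have hcop : Nat.Coprime (2 ^ s) ℓ := Nat.Coprime.pow_left _ (Nat.coprime_two_left.mpr hℓ2)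
  obtain ⟨a, ha1, ha2⟩ := Nat.chineseRemainder hcop 1 0
  obtain ⟨b, hb1, hb2⟩ := Nat.chineseRemainder hcop 0 1
  have haodd : Odd a := by
    have : a ≡ 1 [MOD 2] := ha1.of_dvd (dvd_pow_self 2 (by omega))
    exact Nat.odd_iff.2 this
  have hbeven : Even b := by
    have : b ≡ 0 [MOD 2] := hb1.of_dvd (dvd_pow_self 2 (by omega))
    exact Nat.even_iff.2 this
  have hdvd2 : 2 ^ s ∣ 2 ^ s * M := Dvd.intro _ rfl
  have hℓM : ℓ ∣ M := dvd_pow_self ℓ (by omega)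
  have hdvdl : ℓ ∣ 2 ^ s * M := hℓM.mul_left _
  have hn0A : (n0 : A) ≠ 0 := by exact_mod_cast hn0.ne'
  have hw0 : w ≠ 0 := by
    intro h
    rw [h, zero_pow hℓ.ne_zero] at hw
    exact hn0A hw.symm
  have hη0 : η ≠ 0 := hη.ne_zero (by positivity)
  have hR0 : ∀ i, R i ≠ 0 := by
    intro i h
    have h1 := hRp i
    rw [h, zero_pow (by positivity)] at h1
    have h2 : (p i : A) ≠ 0 := by exact_mod_cast (hp i).ne_zero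
    exact h2 h1.symm
  -- `η ^ ℓ` is a power of `ζ ^ 2`
  obtain ⟨y, _, hy⟩ : ∃ y < 2 ^ s * M, (ζ ^ 2) ^ y = η ^ ℓ := by
    apply hξ.eq_pow_of_pow_eq_one
    rw [← pow_mul, show ℓ * (2 ^ s * M) = ℓ ^ (S + 2) * 2 ^ s by rw [hMd]; ring, pow_mul,
      hη.pow_eq_one, one_pow]
  have hηfix : ∀ (f : A ≃ₐ[ℚ] A), f (ζ ^ 2) = ζ ^ 2 → f (η ^ ℓ) = η ^ ℓ := by
    intro f hf
    rw [← hy]
    exact hfix f hf y
  -- powers
  have hσaζ : (σ ^ a) ζ = - ζ := by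
    rw [pow_act σ ζ (-1) (by rw [hσζ]; ring) (by simp) a, haodd.neg_one_pow]
    ring
  have hτbζ : (τ ^ b) ζ = ζ := by
    have h5 : (τ ζ) ^ 2 = ζ ^ 2 := by rw [← map_pow]; exact hτζ
    rcases sq_eq_sq_iff_eq_or_eq_neg.mp h5 with h | h
    · exact pow_fix τ ζ h b
    · rw [pow_act τ ζ (-1) (by rw [h]; ring) (by simp) b, hbeven.neg_one_pow, one_mul]
  have key : ∀ (f : A ≃ₐ[ℚ] A) (_ : f (ζ ^ 2) = ζ ^ 2) (x θ : A) (K k r t : ℕ),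
      f x = θ * x → θ ^ K = 1 → (ζ ^ 2) ^ t = θ →
      k ≡ r [MOD K] → (f ^ k) x = θ ^ r * x := by
    intro f hf x θ K k r t h6 h7 h8 h9
    rw [pow_act f x θ h6 (by rw [← h8]; exact hfix f hf t) k, pow_eq_pow_of_modEq h9 h7]
  -- the four actions
  obtain ⟨θ1, r1, a1, a2, a3⟩ := act' (ζ ^ 2) (2 ^ s * M) hξ ℓ hdvdl w hw0 σ
    (by rw [hw, map_natCast])
  obtain ⟨θ2, r2, b1, b2, b3⟩ := act' (ζ ^ 2) (2 ^ s * M) hξ ℓ hdvdl w hw0 τ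
    (by rw [hw, map_natCast])
  obtain ⟨θ3, r3, c1, c2, c3⟩ := act' (ζ ^ 2) (2 ^ s * M) hξ ℓ hdvdl η hη0 σ (hηfix σ hσξ)
  obtain ⟨θ4, r4, d1, d2, d3⟩ := act' (ζ ^ 2) (2 ^ s * M) hξ ℓ hdvdl η hη0 τ (hηfix τ hτζ)
  have hθ2 : θ2 ≠ 1 := by
    intro h
    rw [h, one_mul] at b1
    exact hτw b1
  have hθ4 : θ4 ≠ 1 := by
    intro h
    rw [h, one_mul] at d1
    exact hτη d1
  refine ⟨σ ^ a * τ ^ b, ζ, w, η, R, 2 * r2, 2 * r4, hζ, hw, hη, ?_, hRp, ?_, ?_, ?_, ?_, ?_⟩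
  · change (σ ^ a) ((τ ^ b) ζ) = -ζ
    rw [hτbζ, hσaζ]
  · intro i
    change (σ ^ a) ((τ ^ b) (R i)) = _
    obtain ⟨θ, r, e1, e2, e3⟩ := act' (ζ ^ 2) (2 ^ s * M) hξ (2 ^ s) hdvd2 (R i) (hR0 i) τ
      (by rw [hRp, map_natCast])
    rw [key τ hτζ (R i) θ (2 ^ s) b 0 r e1 e2 e3 hb1, pow_zero, one_mul,
      key σ hσξ (R i) ((ζ ^ (2 * M)) ^ (2 * x i)) (2 ^ s) a 1 (M * (2 * x i)) (hσR i) ?_ ?_ ha1,
      pow_one]
    · rw [← pow_mul, ← pow_mul, show 2 * M * (2 * x i * 2 ^ s) = (2 ^ (s + 1) * M) * (2 * x i) by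
        ring, pow_mul, hζ.pow_eq_one, one_pow]
    · rw [← pow_mul, ← pow_mul]
      congr 1
      ring
  · change (σ ^ a) ((τ ^ b) w) = _
    rw [key τ hτζ w θ2 ℓ b 1 r2 b1 b2 b3 hb2, pow_one, map_mul,
      pow_fix σ θ2 (by rw [← b3]; exact hfix σ hσξ r2),
      key σ hσξ w θ1 ℓ a 0 r1 a1 a2 a3 ha2, pow_zero, one_mul, pow_mul, b3]
  · rw [pow_mul, b3]
    exact hθ2
  · change (σ ^ a) ((τ ^ b) η) = _
    rw [key τ hτζ η θ4 ℓ b 1 r4 d1 d2 d3 hb2, pow_one, map_mul,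
      pow_fix σ θ4 (by rw [← d3]; exact hfix σ hσξ r4),
      key σ hσξ η θ3 ℓ a 0 r3 c1 c2 c3 ha2, pow_zero, one_mul, pow_mul, d3]
  · rw [pow_mul, d3]
    exact hθ4

end gen

end Pool.Agent.T2H18.TW
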