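import Pool.Agent.T2H18.TW.VF

/-!
# The automorphism for the 2-part and the `ℓ`-part together
-/

set_option autoImplicit false

namespace Pool.Agent.T2H18.TW

open Pool.Agent.W688.VT

section gen

variable {A : Type} [Field A] [CharZero A]

lemma pow_fix (τ : A ≃ₐ[ℚ] A) (θ : A) (hθ : τ θ = θ) (k : ℕ) : (τ ^ k) θ = θ := by
  induction k with
  | zero => rfl
  | succ k ih =>
    rw [pow_succ]
    change (τ ^ k) (τ θ) = θ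
    rw [hθ, ih]

lemma pow_act (τ : A ≃ₐ[ℚ] A) (x θ : A) (h : τ x = θ * x) (hθ : τ θ = θ) (k : ℕ) :
    (τ ^ k) x = θ ^ k * x := by
  induction k with
  | zero => rw [pow_zero, pow_zero, one_mul]; rfl
  | succ k ih =>
    rw [pow_succ]
    change (τ ^ k) (τ x) = θ ^ (k + 1) * x
    rw [h, map_mul, pow_fix τ θ hθ k, ih]
    ring

/-- the action on a root -/
lemma act (ξ : A) (M : ℕ) [NeZero M] (hξ : IsPrimitiveRoot ξ M) (K : ℕ) (hK : K ∣ M)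
    (hK0 : K ≠ 0) (x : A) (hx : x ≠ 0) (m : ℕ) (hxm : x ^ K = m) (τ : A ≃ₐ[ℚ] A) :
    ∃ θ : A, τ x = θ * x ∧ θ ^ K = 1 ∧ ∀ τ' : A ≃ₐ[ℚ] A, τ' ξ = ξ → τ' θ = θ := by
  have h1 : (τ x / x) ^ K = 1 := by
    rw [div_pow, ← map_pow, hxm, map_natCast, div_self]
    rw [← hxm]
    exact pow_ne_zero _ hx
  have h2 : (τ x / x) ^ M = 1 := by
    obtain ⟨c, rfl⟩ := hK
    rw [pow_mul, h1, one_pow]
  obtain ⟨i, _, hi⟩ := hξ.eq_pow_of_pow_eq_one h2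
  refine ⟨τ x / x, (div_mul_cancel₀ _ hx).symm, h1, fun τ' hτ' => ?_⟩
  rw [← hi, map_pow, hτ']

lemma comb (e L ℓ n u n0 : ℕ) (he : 0 < e) (hL : 0 < L) (hℓ : Odd ℓ) (hℓL : ℓ ∣ L)
    (hn : 0 < n) (hu : 0 < u) (hn0 : 0 < n0) (ζ ν υ w : A)
    (hζ : IsPrimitiveRoot ζ (2 ^ (e + 1) * L)) (hν : ν ^ 2 ^ e = n) (hυ : υ ^ 2 ^ e = u)
    (hw : w ^ ℓ = n0) (σ τ : A ≃ₐ[ℚ] A) (h1 : σ (ζ ^ 2) = ζ ^ 2) (h2 : σ ζ ≠ ζ) (h3 : σ ν = ν)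
    (h4 : σ υ ≠ υ) (t1 : τ (ζ ^ 2) = ζ ^ 2) (t2 : τ w ≠ w) :
    ∃ ρ : A ≃ₐ[ℚ] A, ρ (ζ ^ 2) = ζ ^ 2 ∧ ρ ζ ≠ ζ ∧ ρ ν = ν ∧ ρ υ ≠ υ ∧ ρ w ≠ w := by
  have hNe : NeZero (2 ^ e * L) := ⟨by positivity⟩
  have hξ : IsPrimitiveRoot (ζ ^ 2) (2 ^ e * L) :=
    hζ.pow (by positivity) (show 2 ^ (e + 1) * L = 2 * (2 ^ e * L) by ring)
  have hℓ0 : ℓ ≠ 0 := by
    rintro rfl
    simp at hℓ
  have hζ0 : ζ ≠ 0 := hζ.ne_zero (by positivity)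
  have ne0 : ∀ (x : A) (K m : ℕ), K ≠ 0 → 0 < m → x ^ K = m → x ≠ 0 := by
    intro x K m hK hm hx h
    rw [h, zero_pow hK] at hx
    exact hm.ne' (by exact_mod_cast hx.symm)
  have hν0 := ne0 ν (2 ^ e) n (by positivity) hn hν
  have hυ0 := ne0 υ (2 ^ e) u (by positivity) hu hυ
  have hw0 := ne0 w ℓ n0 hℓ0 hn0 hw
  have hcop : Nat.Coprime (2 ^ e) ℓ := Nat.Coprime.pow_left _ (Nat.coprime_two_left.mpr hℓ)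
  obtain ⟨a, ha1, ha2⟩ := Nat.chineseRemainder hcop 1 0
  obtain ⟨b, hb1, hb2⟩ := Nat.chineseRemainder hcop 0 1
  have hdvd2 : 2 ^ e ∣ 2 ^ e * L := Dvd.intro _ rfl
  have hdvdl : ℓ ∣ 2 ^ e * L := hℓL.mul_left _
  have haodd : Odd a := by
    have : a ≡ 1 [MOD 2] := ha1.of_dvd (dvd_pow_self 2 he.ne')
    exact Nat.odd_iff.2 this
  have hbeven : Even b := by
    have : b ≡ 0 [MOD 2] := hb1.of_dvd (dvd_pow_self 2 he.ne')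
    exact Nat.even_iff.2 this
  have hsig : ∀ (x : A), x ^ 2 = 1 → x = 1 ∨ x = -1 := fun x hx => by
    rw [sq] at hx
    exact mul_self_eq_one_iff.mp hx
  have hσζ : σ ζ = (-1) * ζ := by
    have h5 : (σ ζ) ^ 2 = ζ ^ 2 := by rw [← map_pow]; exact h1
    rcases sq_eq_sq_iff_eq_or_eq_neg.mp h5 with h | h
    · exact absurd h h2
    · rw [h]; ring
  have hσaζ : (σ ^ a) ζ = - ζ := by
    rw [pow_act σ ζ (-1) hσζ (by simp) a, haodd.neg_one_pow]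
    ring
  have hτbζ : (τ ^ b) ζ = ζ := by
    have h5 : (τ ζ) ^ 2 = ζ ^ 2 := by rw [← map_pow]; exact t1
    rcases sq_eq_sq_iff_eq_or_eq_neg.mp h5 with h | h
    · exact pow_fix τ ζ h b
    · rw [pow_act τ ζ (-1) (by rw [h]; ring) (by simp) b, hbeven.neg_one_pow, one_mul]
  have key : ∀ (f : A ≃ₐ[ℚ] A) (hf : f (ζ ^ 2) = ζ ^ 2) (x θ : A) (K k r : ℕ),
      f x = θ * x → θ ^ K = 1 → (∀ τ' : A ≃ₐ[ℚ] A, τ' (ζ ^ 2) = ζ ^ 2 → τ' θ = θ) →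
      k ≡ r [MOD K] → (f ^ k) x = θ ^ r * x := by
    intro f hf x θ K k r h6 h7 h8 h9
    rw [pow_act f x θ h6 (h8 f hf) k, pow_eq_pow_of_modEq h9 h7]
  obtain ⟨θ1, e1, e2, e3⟩ := act (ζ ^ 2) (2 ^ e * L) hξ (2 ^ e) hdvd2 (by positivity) ν hν0 n hν τ
  obtain ⟨θ2, f1, f2, f3⟩ := act (ζ ^ 2) (2 ^ e * L) hξ (2 ^ e) hdvd2 (by positivity) υ hυ0 u hυ τ
  obtain ⟨θ3, g1, g2, g3⟩ := act (ζ ^ 2) (2 ^ e * L) hξ (2 ^ e) hdvd2 (by positivity) υ hυ0 u hυ σ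
  obtain ⟨θ4, k1, k2, k3⟩ := act (ζ ^ 2) (2 ^ e * L) hξ ℓ hdvdl hℓ0 w hw0 n0 hw σ
  obtain ⟨θ5, l1, l2, l3⟩ := act (ζ ^ 2) (2 ^ e * L) hξ ℓ hdvdl hℓ0 w hw0 n0 hw τ
  refine ⟨σ ^ a * τ ^ b, ?_, ?_, ?_, ?_, ?_⟩
  · change (σ ^ a) ((τ ^ b) (ζ ^ 2)) = ζ ^ 2
    rw [pow_fix τ _ t1, pow_fix σ _ h1]
  · change (σ ^ a) ((τ ^ b) ζ) ≠ ζ
    rw [hτbζ, hσaζ]
    intro h
    have h5 : (2 : A) * ζ = 0 := by linear_combination (-1 : A) * h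
    rcases mul_eq_zero.mp h5 with h | h
    · exact two_ne_zero h
    · exact hζ0 h
  · change (σ ^ a) ((τ ^ b) ν) = ν
    rw [key τ t1 ν θ1 (2 ^ e) b 0 e1 e2 e3 hb1, pow_zero, one_mul, pow_fix σ ν h3]
  · change (σ ^ a) ((τ ^ b) υ) ≠ υ
    rw [key τ t1 υ θ2 (2 ^ e) b 0 f1 f2 f3 hb1, pow_zero, one_mul,
      key σ h1 υ θ3 (2 ^ e) a 1 g1 g2 g3 ha1, pow_one, ← g1]
    exact h4
  · change (σ ^ a) ((τ ^ b) w) ≠ w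
    rw [key τ t1 w θ5 ℓ b 1 l1 l2 l3 hb2, pow_one, map_mul, pow_fix σ θ5 (l3 σ h1),
      key σ h1 w θ4 ℓ a 0 k1 k2 k3 ha2, pow_zero, one_mul, ← l1]
    exact t2

/-- the generic form -/
lemma vf_gen [IsAlgClosed A] [Algebra.IsAlgebraic ℚ A] (p a u L ℓ n0 : ℕ)
    (hp : p.Prime) (ha : Odd a) (hu : 2 ≤ u) (hpu : ¬ p ∣ u) (hL : 0 < L) (hℓ : Odd ℓ)
    (hℓL : ℓ ∣ L) (hn0 : 0 < n0) (hnp : ∀ s : ℚ, s ^ ℓ ≠ n0) :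
    ∃ (e : ℕ) (σ : A ≃ₐ[ℚ] A) (ζ ν υ w : A), IsPrimitiveRoot ζ (2 ^ (e + 1) * L) ∧
      ν ^ 2 ^ e = ((p ^ a * u : ℕ) : A) ∧ υ ^ 2 ^ e = (u : A) ∧ w ^ ℓ = (n0 : A) ∧
      σ (ζ ^ 2) = ζ ^ 2 ∧ σ ζ ≠ ζ ∧ σ ν = ν ∧ σ υ ≠ υ ∧ σ w ≠ w := by
  obtain ⟨l, hl, hlu⟩ := Nat.exists_prime_and_dvd (show u ≠ 1 by omega)
  obtain ⟨e, he, hle⟩ : ∃ e, 3 ≤ e ∧ padicValNat l u < 2 ^ (e - 1) := by
    refine ⟨padicValNat l u + 3, by omega, ?_⟩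
    calc padicValNat l u < 2 ^ padicValNat l u := Nat.lt_two_pow_self
      _ ≤ 2 ^ (padicValNat l u + 3 - 1) := Nat.pow_le_pow_right (by norm_num) (by omega)
  obtain ⟨ι, c, hc⟩ := exConj (A := A)
  obtain ⟨ζ, hζ⟩ := exPrim (A := A) (2 ^ (e + 1) * L) (by positivity)
  have hNe : NeZero (2 ^ e) := ⟨by positivity⟩
  have hℓ0 : ℓ ≠ 0 := by
    rintro rfl
    simp at hℓ
  have hNl : NeZero ℓ := ⟨hℓ0⟩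
  have hξ : IsPrimitiveRoot (ζ ^ (2 * L)) (2 ^ e) :=
    hζ.pow (by positivity) (show 2 ^ (e + 1) * L = 2 * L * 2 ^ e by ring)
  obtain ⟨b, hb⟩ := hℓL
  have hξl : IsPrimitiveRoot (ζ ^ (2 ^ (e + 1) * b)) ℓ :=
    hζ.pow (by positivity) (show 2 ^ (e + 1) * L = 2 ^ (e + 1) * b * ℓ by rw [hb]; ring)
  have hpa : 0 < p ^ a := pow_pos hp.pos a
  obtain ⟨ν, hν, hcν⟩ := exReal ι c hc (2 ^ e) _ hξ (p ^ a * u) (by positivity)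
  obtain ⟨υ, hυ, hcυ⟩ := exReal ι c hc (2 ^ e) _ hξ u (by omega)
  obtain ⟨w, hw, hcw⟩ := exReal ι c hc ℓ _ hξl n0 hn0
  have hcζ := conjPrim ι c hc (2 ^ (e + 1) * L) (by positivity) ζ hζ
  obtain ⟨τ1, h11, h12, h13⟩ := step1 e (p ^ a * u) L he (by positivity) hL ζ ν hζ c hcζ hν hcν
  obtain ⟨τ2, h21, h22, h23⟩ := step2 p a u l e L he hL hp ha hu hpu hl hlu hle ζ ν υ hζ c hcζ
    hν hcν hυ hcυ
  obtain ⟨τ3, h31, h32⟩ := step3 e L ℓ n0 hL hℓ ⟨b, hb⟩ hn0 hnp ζ w hζ c hcζ hw hcw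
  obtain ⟨σ, s1, s2, s3, s4⟩ : ∃ σ : A ≃ₐ[ℚ] A, σ (ζ ^ 2) = ζ ^ 2 ∧ σ ζ ≠ ζ ∧ σ ν = ν ∧
      σ υ ≠ υ := by
    by_cases h1 : τ1 υ = υ
    · by_cases h2 : τ2 ζ = ζ
      · refine ⟨τ2.trans τ1, ?_, ?_, ?_, ?_⟩
        · change τ1 (τ2 (ζ ^ 2)) = ζ ^ 2
          rw [h21, h11]
        · change τ1 (τ2 ζ) ≠ ζ
          rw [h2]; exact h13
        · change τ1 (τ2 ν) = ν
          rw [h22, h12]
        · change τ1 (τ2 υ) ≠ υ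
          intro h
          apply h23
          apply τ1.injective
          rw [h, h1]
      · exact ⟨τ2, h21, h2, h22, h23⟩
    · exact ⟨τ1, h11, h13, h12, h1⟩
  obtain ⟨ρ, r1, r2, r3, r4, r5⟩ := comb e L ℓ (p ^ a * u) u n0 (by omega) hL hℓ ⟨b, hb⟩
    (by positivity) (by omega) hn0 ζ ν υ w hζ hν hυ hw σ τ3 s1 s2 s3 s4 h31 h32
  exact ⟨e, ρ, ζ, ν, υ, w, hζ, hν, hυ, hw, r1, r2, r3, r4, r5⟩

end gen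

end Pool.Agent.T2H18.TW
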