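import Pool.Agent.T2H18.TW.VC
import Pool.Agent.W114.VT.General

/-!
# Powers `n ^ i` in a fixed dimension
-/

set_option autoImplicit false

namespace Pool.Agent.T2H18.TW

open Pool.Agent.W688.VT Pool.Agent.W114.VT Pool.Agent.H771R2.SingerDS

lemma exists_root (ℓ : ℕ) (hℓ : 2 ≤ ℓ) : ∀ n : ℕ, 2 ≤ n →
    ∃ n0 s : ℕ, 2 ≤ n0 ∧ n = n0 ^ ℓ ^ s ∧ ∀ k : ℕ, k ^ ℓ ≠ n0 := by
  intro n
  induction n using Nat.strong_induction_on with
  | _ n ih =>
    intro hn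
    by_cases h : ∃ k : ℕ, k ^ ℓ = n
    · obtain ⟨k, hk⟩ := h
      have hk2 : 2 ≤ k := by
        by_contra hc
        have : k = 0 ∨ k = 1 := by omega
        rcases this with rfl | rfl
        · rw [zero_pow (by omega)] at hk
          omega
        · rw [one_pow] at hk
          omega
      have hkn : k < n := by
        rw [← hk]
        calc k = k ^ 1 := (pow_one k).symm
          _ < k ^ ℓ := Nat.pow_lt_pow_right (by omega) (by omega)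
      obtain ⟨n0, s, h1, h2, h3⟩ := ih k hkn hk2
      refine ⟨n0, s + 1, h1, ?_, h3⟩
      rw [← hk, h2, ← pow_mul, pow_succ]
    · push Not at h
      exact ⟨n, 0, hn, by simp, h⟩

lemma not_rat_pow {ℓ n0 : ℕ} (hℓ : 0 < ℓ) (h : ∀ k : ℕ, k ^ ℓ ≠ n0) (s : ℚ) :
    s ^ ℓ ≠ n0 := by
  intro hs
  have h1 : IsIntegral ℤ (s ^ ℓ) := by
    rw [hs]
    exact isIntegral_algebraMap (R := ℤ) (x := (n0 : ℤ))
  obtain ⟨y, hy⟩ := IsIntegrallyClosed.exists_algebraMap_eq_of_isIntegral_pow hℓ h1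
  apply h y.natAbs
  have h2 : (y : ℚ) ^ ℓ = n0 := by
    rw [← hs, ← hy]
    simp
  have h3 : y ^ ℓ = (n0 : ℤ) := by exact_mod_cast h2
  have h4 := congrArg Int.natAbs h3
  rw [Int.natAbs_pow, Int.natAbs_natCast] at h4
  exact h4

theorem primes {n : ℕ} (hn : 2 ≤ n) (h1 : ¬ IsPrimePow n) (h2 : ¬ IsSquare n) {ℓ : ℕ}
    (hℓ : ℓ.Prime) (hℓ2 : Odd ℓ) (B : ℕ) :
    ∃ q p a u j : ℕ, B < q ∧ q.Prime ∧ p.Prime ∧ Odd a ∧ ¬ p ∣ u ∧ n = p ^ a * u ∧
      Odd (orderOf (n : ZMod q)) ∧ (p : ZMod q) ^ j = -1 ∧ ℓ ∣ orderOf (n : ZMod q) := by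
  have hn0 : n ≠ 0 := by omega
  obtain ⟨p, hp, ha⟩ := exists_odd_fac hn0 h2
  set a := n.factorization p with hadef
  set u := n / p ^ a with hu
  have hnu : n = p ^ a * u := (Nat.ordProj_mul_ordCompl_eq_self n p).symm
  have hpu : ¬ p ∣ u := Nat.not_dvd_ordCompl hp hn0
  have hu2 : 2 ≤ u := by
    rcases Nat.lt_or_ge u 2 with h | h
    · exfalso
      interval_cases hh : u
      · simp at hnu; omega
      · apply h1
        rw [hnu, mul_one]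
        exact hp.isPrimePow.pow ha.pos.ne'
    · exact h
  obtain ⟨n0, s, hn02, hns, hn0p⟩ := exists_root ℓ hℓ.two_le n hn
  have := algInst
  obtain ⟨e, σ, ζ, ν, υ, w, g1, g2, g3, g4, g5, g6, g7, g8, g9⟩ :=
    vf_gen (A := AlgebraicClosure ℚ) p a u (ℓ ^ (s + 1)) ℓ n0 hp ha hu2 hpu
      (pow_pos hℓ.pos _) hℓ2 (dvd_pow_self ℓ (by omega)) (by omega)
      (not_rat_pow hℓ.pos hn0p)
  obtain ⟨q, j, k1, k2, k3, k4, k5⟩ := main_gen p a u e ℓ s n0 σ ζ ν υ w hp hu2 hℓ hℓ2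
    (by omega) g1 g2 g3 g4 g5 g6 g7 g8 g9 B
  rw [← hnu] at k3
  rw [← hns] at k5
  exact ⟨q, p, a, u, j, k1, k2, hp, ha, hpu, hnu, k3, k4, k5⟩

theorem tower {n : ℕ} (hn : 2 ≤ n) (h1 : ¬ IsPrimePow n) (h2 : ¬ IsSquare n) {ℓ : ℕ}
    (hℓ : ℓ.Prime) (hℓ2 : ℓ ≠ 2) (B : ℕ) :
    ∃ i : ℕ, B < i ∧ Odd i ∧ ∀ t m : ℕ, Odd t → ¬ ℓ ∣ t → Odd m → ℓ ∣ m →
      ¬ HasSinger (n ^ (i * t)) m := by
  have hℓo : Odd ℓ := hℓ.odd_of_ne_two hℓ2
  obtain ⟨q, p, a, u, j, k1, k2, hp, ha, hpu, hnu, k3, k4, k5⟩ :=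
    primes hn h1 h2 hℓ hℓo (n ^ (ℓ * B))
  have : Fact q.Prime := ⟨k2⟩
  obtain ⟨i, hi⟩ := k5
  have hiodd : Odd i := by
    rw [hi] at k3
    exact (Nat.odd_mul.1 k3).2
  refine ⟨i, ?_, hiodd, ?_⟩
  · by_contra hc
    push Not at hc
    have h3 : (n : ZMod q) ^ (ℓ * i) = 1 := by
      rw [← hi]
      exact pow_orderOf_eq_one _
    have h4 : n ^ (ℓ * i) < q :=
      (Nat.pow_le_pow_right (by omega) (Nat.mul_le_mul_left ℓ hc)).trans_lt k1
    have h5 : ((n ^ (ℓ * i) : ℕ) : ZMod q) = ((1 : ℕ) : ZMod q) := by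
      rw [Nat.cast_pow, h3, Nat.cast_one]
    rw [ZMod.natCast_eq_natCast_iff', Nat.mod_eq_of_lt h4, Nat.mod_eq_of_lt k2.one_lt] at h5
    have h6 : 1 < n ^ (ℓ * i) := Nat.one_lt_pow (by
      have := hℓ.pos
      have := hiodd.pos
      positivity) (by omega)
    omega
  · intro t m ht hlt hm hlm hS
    have hm3 : 3 ≤ m := by
      have h3 : 3 ≤ ℓ := by
        have := hℓ.two_le
        omega
      exact h3.trans (Nat.le_of_dvd hm.pos hlm)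
    have hN : 2 ≤ n ^ (i * t) := by
      have h3 : i * t ≠ 0 := by
        have := hiodd.pos
        have := ht.pos
        positivity
      calc 2 ≤ n := hn
        _ = n ^ 1 := (pow_one n).symm
        _ ≤ n ^ (i * t) := Nat.pow_le_pow_right (by omega) (by omega)
    refine excluded' (q := q) (p := p) (a := a * (i * t)) (u := u ^ (i * t)) (j := j) hm hm3 hN hS
      k2 ?_ ?_ hp ?_ ?_ ?_ k4
    · obtain ⟨c, rfl⟩ := hlm
      rw [Nat.cast_pow, ← pow_mul, show i * t * (ℓ * c) = (ℓ * i) * (t * c) by ring, pow_mul,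
        ← hi, pow_orderOf_eq_one, one_pow]
    · rw [Nat.cast_pow]
      intro h
      have h3 := orderOf_dvd_of_pow_eq_one h
      rw [hi, mul_comm i t] at h3
      exact hlt (Nat.dvd_of_mul_dvd_mul_right hiodd.pos h3)
    · rw [hnu, mul_pow, ← pow_mul]
    · intro h
      exact hpu (hp.dvd_of_dvd_pow h)
    · exact ha.mul (hiodd.mul ht)

end Pool.Agent.T2H18.TW
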