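import Pool.Agent.T2H18.TW.Auto

/-!
# The Chebotarev step in the general case
-/

set_option autoImplicit false

namespace Pool.Agent.T2H18.TW

open Pool.Agent.W688.VT NumberField Polynomial Finset

lemma lift_int {A : Type} [Field A] [CharZero A] (L : IntermediateField ℚ A) (x : A) (hx : x ∈ L)
    (m : ℤ) (N : ℕ) (hN : N ≠ 0) (hxm : x ^ N = (m : A)) :
    ∃ o : 𝓞 L, ((o : L) : A) = x ∧ o ^ N = (m : 𝓞 L) := by
  have h0 : (⟨x, hx⟩ : L) ^ N = (m : L) := by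
    apply Subtype.ext
    simpa using hxm
  have h1 : IsIntegral ℤ (⟨x, hx⟩ : L) := by
    apply IsIntegral.of_pow (Nat.pos_of_ne_zero hN)
    rw [h0]
    exact isIntegral_algebraMap (R := ℤ) (x := m)
  refine ⟨⟨⟨x, hx⟩, h1⟩, rfl, ?_⟩
  apply RingOfIntegers.coe_injective
  rw [map_pow, map_intCast]
  exact h0

lemma prim_map {A : Type} [Field A] [CharZero A] (L : IntermediateField ℚ A)
    {F : Type} [Field F] (φ : 𝓞 L →+* F) (o : 𝓞 L) (N : ℕ) (hN : 0 < N)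
    (ho : IsPrimitiveRoot ((o : L) : A) N) (hF : ((N : ℕ) : F) ≠ 0) :
    IsPrimitiveRoot (φ o) N := by
  have h4 : ∀ m : ℕ, ((o ^ m : 𝓞 L) : L) = ((o : L)) ^ m := fun m => by push_cast; rfl
  have h3 : Function.Injective (fun o : 𝓞 L => ((o : L) : A)) := by
    intro a b hab
    exact RingOfIntegers.coe_injective (Subtype.ext hab)
  have hprimO : IsPrimitiveRoot o N := by
    refine ⟨h3 ?_, fun m hm => ho.dvd_of_pow_eq_one m ?_⟩
    · change (((o ^ N : 𝓞 L) : L) : A) = (((1 : 𝓞 L) : L) : A)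
      rw [h4]
      push_cast
      rw [ho.pow_eq_one]
    · have h5 := congrArg (fun o : 𝓞 L => ((o : L) : A)) hm
      change (((o ^ m : 𝓞 L) : L) : A) = (((1 : 𝓞 L) : L) : A) at h5
      rw [h4] at h5
      push_cast at h5
      exact h5
  have hNe : NeZero ((N : ℕ) : F) := ⟨hF⟩
  have h1 := (hprimO.isRoot_cyclotomic hN).map (f := φ)
  rw [map_cyclotomic] at h1
  exact isRoot_cyclotomic_iff.1 h1

theorem goodL {s S ℓ n0 : ℕ} (hs : 3 ≤ s) (hℓ : ℓ.Prime) (hℓ2 : Odd ℓ) (hn0 : 0 < n0)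
    (hnp : ∀ s : ℚ, s ^ ℓ ≠ n0) {k : ℕ} (p : Fin k → ℕ) (hp : ∀ i, (p i).Prime)
    (hinj : Function.Injective p) (x : Fin k → ℕ) (K₀ : ℕ) :
    ∃ w b : ℕ, w.Prime ∧ K₀ < w ∧ Odd b ∧ ¬ ℓ ∣ b ∧ w = 2 ^ s * (ℓ ^ (S + 1) * b) + 1 ∧
      ∃ g : ZMod w, g ^ (2 ^ (s - 1)) = -1 ∧
        (∀ i, (p i : ZMod w) ^ (ℓ ^ (S + 1) * b) = g ^ (2 * x i)) ∧
        (n0 : ZMod w) ^ ((w - 1) / ℓ) ≠ 1 := by
  classical
  have := algInst
  have hℓpos := hℓ.pos
  obtain ⟨ρ, ζ, ω, η, R, u, v, hζ, hω, hη, hρζ, hRp, hρR, hρω, hu1, hρη, hv1⟩ :=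
    both (A := AlgebraicClosure ℚ) (s := s) (S := S) hs hℓ hℓ2 hn0 hnp p hp hinj x
  set M := ℓ ^ (S + 1) with hMd
  have hM : Odd M := hℓ2.pow
  have hMpos := hM.pos
  set Bd := K₀ + 2 ^ (s + 1) * M * ℓ + n0 + ∑ i, p i with hBd
  obtain ⟨w, hw, L, φ, hwB, hSL, hφ⟩ := red ρ (insert ζ (insert ω (insert η (Set.range R))))
    ((((Set.finite_range R).insert η).insert ω).insert ζ) Bd
  have hNw : ∀ m : ℕ, 0 < m → m ≤ Bd → ((m : ℕ) : AlgebraicClosure (ZMod w)) ≠ 0 := by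
    intro m hm hmB h
    have hch : CharP (AlgebraicClosure (ZMod w)) w :=
      charP_of_injective_algebraMap (algebraMap (ZMod w) (AlgebraicClosure (ZMod w))).injective w
    rw [CharP.cast_eq_zero_iff (AlgebraicClosure (ZMod w)) w] at h
    exact absurd (Nat.le_of_dvd hm h) (by omega)
  set F := AlgebraicClosure (ZMod w) with hF
  have hinjF : Function.Injective (algebraMap (ZMod w) F) := (algebraMap (ZMod w) F).injective
  have hw1 : w = (w - 1) + 1 := by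
    have := hw.out.two_le
    omega
  have hζL : ζ ∈ L := hSL (Set.mem_insert _ _)
  have hωL : ω ∈ L := hSL (Set.mem_insert_of_mem _ (Set.mem_insert _ _))
  have hηL : η ∈ L := hSL (Set.mem_insert_of_mem _ (Set.mem_insert_of_mem _ (Set.mem_insert _ _)))
  have hRL : ∀ i, R i ∈ L := fun i => hSL (Set.mem_insert_of_mem _ (Set.mem_insert_of_mem _
    (Set.mem_insert_of_mem _ (Set.mem_range_self i))))
  have hNpos : 0 < 2 ^ (s + 1) * M := by positivity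
  have hN'pos : 0 < ℓ ^ (S + 2) := by positivity
  have hM1 : ℓ ^ (S + 2) = M * ℓ := by rw [hMd]; ring
  have h2s : 1 ≤ 2 ^ (s + 1) := Nat.one_le_two_pow
  have hNle : 2 ^ (s + 1) * M ≤ Bd := by
    have : 2 ^ (s + 1) * M ≤ 2 ^ (s + 1) * M * ℓ := Nat.le_mul_of_pos_right _ hℓpos
    omega
  have hN'le : ℓ ^ (S + 2) ≤ Bd := by
    have : M * ℓ ≤ 2 ^ (s + 1) * M * ℓ := by
      rw [mul_assoc]
      exact Nat.le_mul_of_pos_left _ (by positivity)
    omega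
  obtain ⟨oz, hoz, _⟩ := lift_int L ζ hζL 1 (2 ^ (s + 1) * M) hNpos.ne'
    (by rw [hζ.pow_eq_one]; simp)
  obtain ⟨oη, hoη, _⟩ := lift_int L η hηL 1 (ℓ ^ (S + 2)) hN'pos.ne'
    (by rw [hη.pow_eq_one]; simp)
  obtain ⟨oω, hoω, hoωe⟩ := lift_int L ω hωL ((n0 : ℕ) : ℤ) ℓ hℓ.ne_zero
    (by rw [hω]; simp)
  have hRex : ∀ i, ∃ o : 𝓞 L, ((o : L) : AlgebraicClosure ℚ) = R i ∧
      o ^ 2 ^ s = (((p i : ℕ) : ℤ) : 𝓞 L) := fun i =>
    lift_int L (R i) (hRL i) ((p i : ℕ) : ℤ) (2 ^ s) (by positivity) (by rw [hRp]; simp)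
  choose r hr hre using hRex
  have hθ : IsPrimitiveRoot (φ oz) (2 ^ (s + 1) * M) :=
    prim_map L φ oz _ hNpos (by rw [hoz]; exact hζ) (hNw _ hNpos hNle)
  have hθη : IsPrimitiveRoot (φ oη) (ℓ ^ (S + 2)) :=
    prim_map L φ oη _ hN'pos (by rw [hoη]; exact hη) (hNw _ hN'pos hN'le)
  set θ := φ oz with hθd
  have hθ0 : θ ≠ 0 := hθ.ne_zero hNpos.ne'
  have h2 : 2 ^ (s + 1) * M = 2 * (2 ^ s * M) := by ring
  have hθw : θ ^ w = -θ := by
    rw [hθd, ← map_neg]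
    symm
    apply hφ
    rw [hoz, hρζ, ← hoz]
    simp
  have hθw1 : θ ^ (w - 1) = -1 := by
    have h1 : θ ^ (w - 1) * θ = -1 * θ := by
      rw [← pow_succ, ← hw1, hθw]
      ring
    exact mul_right_cancel₀ hθ0 h1
  have hhalf : θ ^ (2 ^ s * M) = -1 := by
    apply Pool.Agent.TH66.SG.pow_half (by positivity)
    rw [← h2]
    exact hθ
  have hneg : (-1 : F) ≠ 1 := by
    intro h
    have h1 : (2 : F) = 0 := by linear_combination -h
    refine hNw 2 (by norm_num) ?_ (by exact_mod_cast h1)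
    have h5 : 2 ≤ 2 ^ (s + 1) * M := by
      have : 2 ^ 1 ≤ 2 ^ (s + 1) := Nat.pow_le_pow_right (by norm_num) (by omega)
      nlinarith
    omega
  have hdvd : 2 ^ s * M ∣ w - 1 := by
    have h1 : θ ^ (2 * (w - 1)) = 1 := by
      rw [mul_comm, pow_mul, hθw1]
      norm_num
    have h3 := hθ.dvd_of_pow_eq_one _ h1
    rw [h2] at h3
    exact Nat.dvd_of_mul_dvd_mul_left (by norm_num) h3
  obtain ⟨q, hq⟩ := hdvd
  have hqo : Odd q := by
    by_contra h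
    rw [Nat.not_odd_iff_even] at h
    rw [hq, pow_mul, hhalf, h.neg_one_pow] at hθw1
    exact hneg hθw1.symm
  have hwb : w = 2 ^ s * (M * q) + 1 := by
    rw [← mul_assoc, ← hq]
    exact hw1
  -- the general mechanism
  have moved : ∀ (o : 𝓞 L) (y : AlgebraicClosure ℚ) (t : ℕ), ((o : L) : AlgebraicClosure ℚ) = y →
      ρ y = ζ ^ t * y → ζ ^ t ≠ 1 → φ o ≠ 0 → (φ o) ^ (w - 1) ≠ 1 := by
    intro o y t h3 h4 h5 h6 h7
    have h8 : φ (oz ^ t * o) = (φ o) ^ w := by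
      apply hφ
      rw [h3, h4, ← hoz, ← h3]
      push_cast
      rfl
    have hpw : (φ o) ^ w = φ o := by
      have e1 : (φ o) ^ (w - 1 + 1) = (φ o) ^ w := by rw [← hw1]
      rw [← e1, pow_succ, h7, one_mul]
    rw [map_mul, map_pow, hpw] at h8
    have h9 : (φ oz) ^ t = 1 := mul_right_cancel₀ h6 (by rw [h8, one_mul])
    apply h5
    have h10 := hθ.dvd_of_pow_eq_one _ h9
    obtain ⟨c, rfl⟩ := h10
    rw [pow_mul, hζ.pow_eq_one, one_pow]
  -- `ℓ` does not divide `q`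
  have hℓq : ¬ ℓ ∣ q := by
    rintro ⟨c, rfl⟩
    apply moved oη η v hoη hρη hv1 (hθη.ne_zero hN'pos.ne')
    rw [hq, show 2 ^ s * M * (ℓ * c) = ℓ ^ (S + 2) * (2 ^ s * c) by rw [hM1]; ring, pow_mul,
      hθη.pow_eq_one, one_pow]
  set γ := θ ^ (2 * M) with hγ
  have hγw : γ ^ w = γ := by
    rw [hγ, ← pow_mul, mul_comm (2 * M) w, pow_mul, hθw, (even_two_mul M).neg_pow]
  obtain ⟨g, hg⟩ := W54.ChTor.frob_fixed w γ hγw
  have hp0 : ∀ i, ((p i : ℕ) : F) ≠ 0 := by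
    intro i
    apply hNw _ (hp i).pos
    have h3 : p i ≤ ∑ i, p i := Finset.single_le_sum (fun _ _ => Nat.zero_le _) (mem_univ i)
    omega
  have hn0F : ((n0 : ℕ) : F) ≠ 0 := hNw _ hn0 (by omega)
  have hωF : (φ oω) ^ ℓ = ((n0 : ℕ) : F) := by
    rw [← map_pow, hoωe, map_intCast, Int.cast_natCast]
  have hω0 : φ oω ≠ 0 := by
    intro h
    rw [h, zero_pow hℓ.ne_zero] at hωF
    exact hn0F hωF.symm
  refine ⟨w, q, hw.out, by omega, hqo, hℓq, hwb, g, ?_, fun i => ?_, ?_⟩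
  · apply hinjF
    rw [map_pow, hg, hγ, ← pow_mul, map_neg, map_one, ← hhalf]
    congr 1
    obtain ⟨u, rfl⟩ : ∃ u, s = u + 1 := ⟨s - 1, by omega⟩
    rw [Nat.add_sub_cancel]
    ring
  · apply hinjF
    rw [map_pow, map_pow, hg, map_natCast]
    have h1 : φ (r i) ^ 2 ^ s = (p i : F) := by
      rw [← map_pow, hre, map_intCast, Int.cast_natCast]
    have hr0 : φ (r i) ≠ 0 := by
      intro h0
      rw [h0, zero_pow (by positivity)] at h1
      exact hp0 i h1.symm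
    have h4 : φ (r i) ^ w = γ ^ (2 * x i) * φ (r i) := by
      have h5 : φ ((oz ^ (2 * M)) ^ (2 * x i) * r i) = (φ (r i)) ^ w := by
        apply hφ
        rw [hr, hρR, ← hoz, ← hr]
        push_cast
        rfl
      rw [← h5, map_mul, map_pow, map_pow]
    have h6 : φ (r i) ^ (w - 1) = γ ^ (2 * x i) := by
      have h7 : φ (r i) ^ (w - 1) * φ (r i) = γ ^ (2 * x i) * φ (r i) := by
        rw [← pow_succ, ← hw1, h4]
      exact mul_right_cancel₀ hr0 h7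
    rw [← h6, ← h1, ← pow_mul, hq, mul_assoc]
  · intro h
    apply moved oω ω u hoω hρω hu1 hω0
    have h3 := congrArg (algebraMap (ZMod w) F) h
    rw [map_pow, map_natCast, map_one, ← hωF, ← pow_mul] at h3
    have h4 : ℓ * ((w - 1) / ℓ) = w - 1 := by
      apply Nat.mul_div_cancel'
      rw [hq, hMd]
      exact ((dvd_pow_self ℓ (by omega)).mul_left _).mul_right _
    rwa [h4] at h3

end Pool.Agent.T2H18.TW
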