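import Pool.Agent.TH66.SG.EvB

/-!
# Powers in a fixed dimension, nilpotent groups: preparations and the case of even exponent
-/

set_option autoImplicit false

namespace Pool.Agent.T2H18.TW

open Finset Pool.Agent.TH66.SG

lemma setup {N : ℕ} (hN : 2 ≤ N) (hNp : ¬ IsPrimePow N) :
    ∃ (k : ℕ) (p a : Fin k → ℕ) (i₁ i₂ : Fin k), i₁ ≠ i₂ ∧ (∀ i, (p i).Prime) ∧
      Function.Injective p ∧ (∀ q : ℕ, q.Prime → q ∣ N → ∃ i, p i = q) ∧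
      N = ∏ i, p i ^ a i ∧ ∀ i, a i ≠ 0 := by
  classical
  have hN0 : N ≠ 0 := by omega
  have hk2 : 2 ≤ N.primeFactors.card := by
    have h1 : N.primeFactors.card ≠ 1 := fun h => hNp (isPrimePow_iff_card_primeFactors_eq_one.2 h)
    have h2 : N.primeFactors.card ≠ 0 := by
      intro h
      rw [Finset.card_eq_zero, Nat.primeFactors_eq_empty] at h
      omega
    omega
  have hpmem : ∀ i : Fin N.primeFactors.card,
      (N.primeFactors.equivFin.symm i : ℕ) ∈ N.primeFactors :=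
    fun i => (N.primeFactors.equivFin.symm i).2
  refine ⟨N.primeFactors.card, fun i => (N.primeFactors.equivFin.symm i : ℕ),
    fun i => N.factorization (N.primeFactors.equivFin.symm i : ℕ), ⟨0, by omega⟩, ⟨1, by omega⟩,
    by simp, fun i => Nat.prime_of_mem_primeFactors (hpmem i), ?_, ?_, ?_, ?_⟩
  · intro i j h
    exact N.primeFactors.equivFin.symm.injective (Subtype.ext h)
  · intro q hq hqN
    refine ⟨N.primeFactors.equivFin ⟨q, Nat.mem_primeFactors.2 ⟨hq, hqN, hN0⟩⟩, ?_⟩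
    simp
  · conv_lhs => rw [← Nat.prod_factorization_pow_eq_self hN0]
    rw [Finsupp.prod, Nat.support_factorization, ← Finset.prod_coe_sort]
    exact (Fintype.prod_equiv N.primeFactors.equivFin.symm _ _ (fun i => rfl)).symm
  · intro i
    have h3 := Nat.mem_primeFactors.1 (hpmem i)
    exact (h3.1.factorization_pos_of_dvd hN0 h3.2.1).ne'

lemma concl {N e m E₀ j w₁ w₂ : ℕ} (hN : 2 ≤ N) (he : 1 ≤ e) (hE : 2 * E₀ = e * m)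
    (heE : e ≤ E₀) (hm : 3 ≤ m) (hj : 1 ≤ j) (h1 : w₁.Prime) (h2 : w₂.Prime) (ho1 : w₁ ≠ 2)
    (ho2 : w₂ ≠ 2) (h12 : w₁ ≠ w₂)
    (hz1 : (N : ZMod w₁) ^ (E₀ * j) = -1) (hz2 : (N : ZMod w₂) ^ (E₀ * j) = 1)
    (hn1 : (N : ZMod w₁) ^ (e * j) ≠ 1) (hn2 : (N : ZMod w₂) ^ (e * j) ≠ 1)
    (hs : ∀ p : ℕ, p.Prime → p ∣ N → ∃ c, (p : ZMod w₁) ^ c = -1 ∧ (p : ZMod w₂) ^ c = -1) :
    ¬ NilSinger ((N ^ e) ^ j) m := by
  have hNe : 2 ≤ (N ^ e) ^ j := by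
    rw [← pow_mul]
    have h3 : e * j ≠ 0 := by positivity
    calc 2 ≤ N := hN
      _ = N ^ 1 := (pow_one _).symm
      _ ≤ N ^ (e * j) := Nat.pow_le_pow_right (by omega) (by omega)
  refine key (z := N ^ (E₀ * j)) (u := N ^ (E₀ * j - e * j)) (v := 1) (w₁ := w₁) (w₂ := w₂)
    hNe hm ?_ ?_ (by positivity) one_pos ?_ h1 h2 ho1 ho2 h12 ?_ ?_ ?_ ?_ ?_
  · rw [← pow_mul, ← pow_mul, ← pow_mul]
    congr 1
    calc E₀ * j * 2 = (2 * E₀) * j := by ring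
      _ = e * (j * m) := by rw [hE]; ring
  · rw [mul_one, ← pow_mul, ← pow_add]
    congr 1
    have : e * j ≤ E₀ * j := Nat.mul_le_mul_right _ heE
    omega
  · have h6 : 3 ≤ w₁ := by
      have := h1.two_le
      omega
    have h7 : 2 ≤ w₂ := h2.two_le
    nlinarith
  · rw [Nat.cast_pow, hz1]
  · rw [Nat.cast_pow, hz2]
  · rwa [Nat.cast_pow, Nat.cast_pow, ← pow_mul]
  · rwa [Nat.cast_pow, Nat.cast_pow, ← pow_mul]
  · intro p hp hdv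
    obtain ⟨c, hc1, hc2⟩ := hs p hp (hp.dvd_of_dvd_pow hdv)
    refine ⟨c, Nat.Coprime.mul_dvd_of_dvd_of_dvd ((Nat.coprime_primes h1 h2).2 h12) ?_ ?_⟩
    · rw [← ZMod.natCast_eq_zero_iff]
      push_cast
      rw [hc1, neg_add_cancel]
    · rw [← ZMod.natCast_eq_zero_iff]
      push_cast
      rw [hc2, neg_add_cancel]

/-- the value of the number itself -/
theorem valueK {k : ℕ} (i₁ i₂ : Fin k) (h12 : i₁ ≠ i₂) (α₁ α₂ κ Y V : ℕ)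
    (f : Fin k → ℕ) (f₁ f₂ : ℕ) (hf₁ : f i₁ = 2 ^ α₁ * f₁) (hf₂ : f i₂ = 2 ^ α₂ * f₂)
    (hV : f₁ + f₂ * Y = 2 ^ (κ + 1) * V) {w : ℕ} (q : Fin k → ZMod w) (g : ZMod w)
    (s : ℕ) (hs : s = (α₁ + κ) + (α₂ + κ) + 3)
    (hg : g ^ 2 ^ (s - 1) = -1)
    (hq : ∀ i, q i = g ^ (2 * xx i₁ i₂ s (α₁ + κ) (α₂ + κ) Y i)) :
    ∏ i, q i ^ f i = (-1) ^ (V + ∑ i ∈ (univ.erase i₁).erase i₂, f i) := by
  have hmem : i₂ ∈ univ.erase i₁ := mem_erase.2 ⟨h12.symm, mem_univ _⟩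
  rw [← Finset.mul_prod_erase univ _ (mem_univ i₁), ← Finset.mul_prod_erase _ _ hmem]
  have h1 : q i₁ ^ f i₁ = g ^ (2 ^ (s - 2 - κ) * f₁) := by
    rw [hq, hf₁, xx, if_pos rfl, ← pow_mul]
    congr 1
    have : 2 ^ (s - 2 - κ) = 2 * 2 ^ (s - 3 - (α₁ + κ)) * 2 ^ α₁ := by
      rw [mul_assoc, ← pow_add, ← pow_succ']
      congr 1
      omega
    rw [this]
    ring
  have h2 : q i₂ ^ f i₂ = g ^ (2 ^ (s - 2 - κ) * (f₂ * Y)) := by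
    rw [hq, hf₂, xx, if_neg h12.symm, if_pos rfl, ← pow_mul]
    congr 1
    have : 2 ^ (s - 2 - κ) = 2 * 2 ^ (s - 3 - (α₂ + κ)) * 2 ^ α₂ := by
      rw [mul_assoc, ← pow_add, ← pow_succ']
      congr 1
      omega
    rw [this]
    ring
  have h3 : ∏ i ∈ (univ.erase i₁).erase i₂, q i ^ f i =
      (-1) ^ (∑ i ∈ (univ.erase i₁).erase i₂, f i) := by
    rw [← Finset.prod_pow_eq_pow_sum]
    refine Finset.prod_congr rfl fun i hi => ?_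
    rw [mem_erase, mem_erase] at hi
    rw [hq, xx, if_neg hi.2.1, if_neg hi.1]
    congr 1
    rw [← hg]
    congr 1
    rw [← pow_succ']
    congr 1
    omega
  rw [h1, h2, h3, ← mul_assoc, ← pow_add, ← mul_add, pow_add]
  congr 1
  rw [hV, ← hg, ← pow_mul, ← mul_assoc]
  congr 2
  rw [← pow_add]
  congr 1
  omega

/-- an odd solution of the congruence -/
lemma exY (κ a₁ a₂ O : ℕ) (h1 : Odd a₁) (h2 : Odd a₂) :
    ∃ Y V : ℕ, Odd Y ∧ a₁ + a₂ * Y = 2 ^ (κ + 1) * V ∧ Odd (V + O) := by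
  have hc : Nat.Coprime a₂ (2 ^ (κ + 2)) :=
    Nat.Coprime.pow_right _ (Nat.coprime_two_right.mpr h2)
  -- `a₂ * Y ≡ 2 ^ (κ + 1) * (O + 1) - a₁`
  obtain ⟨c, hcmod⟩ : ∃ c, a₂ * c ≡ 1 [MOD 2 ^ (κ + 2)] := by
    obtain ⟨c, hc'⟩ := Nat.exists_mul_mod_eq_one_of_coprime (k := 2 ^ (κ + 2)) hc
      (Nat.one_lt_pow (by omega) (by norm_num))
    refine ⟨c, ?_⟩
    rw [Nat.ModEq, hc'.2]
    exact (Nat.mod_eq_of_lt (Nat.one_lt_pow (by omega) (by norm_num))).symm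
  -- the target residue
  set T := 2 ^ (κ + 1) * (O + 1) + (2 ^ (κ + 2) - 1) * a₁ with hT
  have hp : 1 ≤ 2 ^ (κ + 2) := Nat.one_le_two_pow
  have hTsum : a₁ + T = 2 ^ (κ + 1) * (O + 1 + 2 * a₁) := by
    rw [hT]
    have e1 : (2 ^ (κ + 2) - 1) * a₁ + a₁ = 2 ^ (κ + 2) * a₁ := by
      obtain ⟨r, hr⟩ : ∃ r, 2 ^ (κ + 2) = r + 1 := ⟨2 ^ (κ + 2) - 1, by omega⟩
      rw [hr]
      simp only [Nat.add_sub_cancel]
      ring
    have e2 : 2 ^ (κ + 2) = 2 ^ (κ + 1) * 2 := by rw [← pow_succ]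
    calc a₁ + (2 ^ (κ + 1) * (O + 1) + (2 ^ (κ + 2) - 1) * a₁)
        = 2 ^ (κ + 1) * (O + 1) + ((2 ^ (κ + 2) - 1) * a₁ + a₁) := by ring
      _ = 2 ^ (κ + 1) * (O + 1) + 2 ^ (κ + 1) * 2 * a₁ := by rw [e1, e2]
      _ = _ := by ring
  have hmod : a₁ + a₂ * (c * T) ≡ 2 ^ (κ + 1) * (O + 1) [MOD 2 ^ (κ + 2)] := by
    calc a₁ + a₂ * (c * T) = a₁ + (a₂ * c) * T := by ring
      _ ≡ a₁ + 1 * T [MOD 2 ^ (κ + 2)] := Nat.ModEq.add_left _ (Nat.ModEq.mul_right _ hcmod)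
      _ = 2 ^ (κ + 1) * (O + 1) + 2 ^ (κ + 2) * a₁ := by
        rw [one_mul, hTsum]
        ring
      _ ≡ 2 ^ (κ + 1) * (O + 1) [MOD 2 ^ (κ + 2)] := by
        simp [Nat.ModEq]
  have hdv : 2 ^ (κ + 1) ∣ a₁ + a₂ * (c * T) := by
    have h3 := hmod.of_dvd (show 2 ^ (κ + 1) ∣ 2 ^ (κ + 2) from pow_dvd_pow 2 (by omega))
    exact (h3.dvd_iff dvd_rfl).2 (Dvd.intro _ rfl)
  obtain ⟨V, hV⟩ := hdv
  refine ⟨c * T, V, ?_, hV, ?_⟩
  · by_contra hcon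
    rw [Nat.not_odd_iff_even] at hcon
    have h3 : Odd (a₁ + a₂ * (c * T)) := h1.add_even (hcon.mul_left _)
    rw [hV, pow_succ] at h3
    have : Even (2 ^ κ * 2 * V) := by
      rw [mul_comm (2 ^ κ) 2, mul_assoc]
      exact even_two_mul _
    exact (Nat.not_odd_iff_even.2 this) h3
  · rw [hV, show 2 ^ (κ + 2) = 2 ^ (κ + 1) * 2 by rw [← pow_succ]] at hmod
    have h3 : V ≡ O + 1 [MOD 2] := Nat.ModEq.mul_left_cancel' (by positivity) hmod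
    have h4 : V + O ≡ O + 1 + O [MOD 2] := Nat.ModEq.add_right _ h3
    rw [Nat.odd_iff]
    rw [Nat.ModEq] at h4
    omega

/-- the case of an even exponent -/
theorem towerA {N m : ℕ} (hN : 2 ≤ N) (hNp : ¬ IsPrimePow N) (h4 : 4 ∣ m) (hm : 3 ≤ m) (B : ℕ) :
    ∃ i : ℕ, B < i ∧ Odd i ∧ ∀ t r : ℕ, Odd t → Odd r → ¬ NilSinger (N ^ (i * t)) (m * r) := by
  classical
  obtain ⟨k, p, a, i₁, i₂, h12, hp, hinj, hsurj, hprod, ha⟩ := setup hN hNp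
  obtain ⟨E₂, hE₂⟩ := h4
  have hE₂0 : 2 * E₂ ≠ 0 := by omega
  obtain ⟨κ, E₁, hE₁o', hE₁⟩ := Nat.exists_eq_pow_mul_and_not_dvd hE₂0 2 (by norm_num)
  have hE₁o : Odd E₁ := by rwa [← Nat.not_even_iff_odd, even_iff_two_dvd]
  obtain ⟨α₁, a₁, ha₁o', ha₁⟩ := Nat.exists_eq_pow_mul_and_not_dvd (ha i₁) 2 (by norm_num)
  obtain ⟨α₂, a₂, ha₂o', ha₂⟩ := Nat.exists_eq_pow_mul_and_not_dvd (ha i₂) 2 (by norm_num)
  have ha₁o : Odd a₁ := by rwa [← Nat.not_even_iff_odd, even_iff_two_dvd]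
  have ha₂o : Odd a₂ := by rwa [← Nat.not_even_iff_odd, even_iff_two_dvd]
  set s := (α₁ + κ) + (α₂ + κ) + 3 with hs
  obtain ⟨Y, V, hY, hV, hVO⟩ := exY κ a₁ a₂ (∑ i ∈ (univ.erase i₁).erase i₂, a i) ha₁o ha₂o
  have hNw : ∀ w : ℕ, (N : ZMod w) = ∏ i, (p i : ZMod w) ^ a i := by
    intro w
    have h2 := congrArg (fun a : ℕ => (a : ZMod w)) hprod
    simp only [Nat.cast_prod, Nat.cast_pow] at h2
    exact h2
  -- the facts for a prime `w` of the type `Y`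
  have facts : ∀ Y K₀ : ℕ, Odd Y → ∃ w b : ℕ, w.Prime ∧ K₀ < w ∧ w ≠ 2 ∧ Odd b ∧
      w = 2 ^ s * b + 1 ∧
      (∃ g : ZMod w, g ^ 2 ^ (s - 1) = -1 ∧
        ∀ i, (p i : ZMod w) ^ b = g ^ (2 * xx i₁ i₂ s (α₁ + κ) (α₂ + κ) Y i)) := by
    intro Y K₀ hY
    obtain ⟨w, hw, hKw, b, hb, hwb, -, g, hg, hgx, -⟩ :=
      exists_good s 1 K₀ (by omega) odd_one p hp hinj (xx i₁ i₂ s (α₁ + κ) (α₂ + κ) Y)
    refine ⟨w, b, hw, hKw, ?_, hb, ?_, g, hg, ?_⟩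
    · intro h
      have h2 : 2 ^ 1 ≤ 2 ^ s := Nat.pow_le_pow_right (by norm_num) (by omega)
      have h3 := hb.pos
      have h4 : 2 ^ s * 1 ≤ 2 ^ s * b := Nat.mul_le_mul_left _ h3
      omega
    · simpa using hwb
    · intro i
      simpa using hgx i
  -- the value of a power of `N`
  have hprodpow : ∀ w b c : ℕ, (N : ZMod w) ^ (c * b) = ∏ i, ((p i : ZMod w) ^ b) ^ (a i * c) := by
    intro w b c
    rw [hNw w, ← Finset.prod_pow]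
    refine Finset.prod_congr rfl fun i _ => ?_
    rw [← pow_mul, ← pow_mul]
    congr 1
    ring
  set f : Fin k → ℕ := fun i => a i * (2 * E₂) with hf
  have hf₁ : f i₁ = 2 ^ (α₁ + κ) * (a₁ * E₁) := by
    simp only [hf, ha₁, hE₁]
    ring
  have hf₂ : f i₂ = 2 ^ (α₂ + κ) * (a₂ * E₁) := by
    simp only [hf, ha₂, hE₁]
    ring
  have ho₁ : Odd (a₁ * E₁) := ha₁o.mul hE₁o
  have ho₂ : Odd (a₂ * E₁) := ha₂o.mul hE₁o
  -- the first prime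
  obtain ⟨w₁, b₁, hw₁, hK₁, hw₁2, hb₁, hwb₁, g₁, hg₁, hgx₁, hv₁⟩ : ∃ w b : ℕ, w.Prime ∧
      2 ^ s * (B + 1) < w ∧ w ≠ 2 ∧ Odd b ∧ w = 2 ^ s * b + 1 ∧
      (∃ g : ZMod w, g ^ 2 ^ (s - 1) = -1 ∧
        (∀ i, ((p i : ZMod w) ^ b) ^
        (if i = i₁ then 2 ^ (α₁ + κ + 1) else if i = i₂ then 2 ^ (α₂ + κ + 1) else 1) = -1) ∧
        (N : ZMod w) ^ (2 * E₂ * b) = -1) := by
    have hval : ∀ Y : ℕ, Odd Y → ∃ w b : ℕ, w.Prime ∧ 2 ^ s * (B + 1) < w ∧ w ≠ 2 ∧ Odd b ∧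
      w = 2 ^ s * b + 1 ∧
      (∃ g : ZMod w, g ^ 2 ^ (s - 1) = -1 ∧
        (∀ i, ((p i : ZMod w) ^ b) ^
        (if i = i₁ then 2 ^ (α₁ + κ + 1) else if i = i₂ then 2 ^ (α₂ + κ + 1) else 1) = -1) ∧
        (N : ZMod w) ^ (2 * E₂ * b) =
          (-1) ^ ((a₁ * E₁ + a₂ * E₁ * Y) / 2 + ∑ i ∈ (univ.erase i₁).erase i₂, f i)) := by
      intro Y hY
      obtain ⟨w, b, hw, hK, hw2, hb, hwb, g, hg, hgx⟩ := facts Y (2 ^ s * (B + 1)) hY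
      refine ⟨w, b, hw, hK, hw2, hb, hwb, g, hg, ?_, ?_⟩
      · exact order_exp i₁ i₂ (α₁ + κ) (α₂ + κ) Y hY _ g s hs hg hgx
      · rw [hprodpow w b (2 * E₂)]
        exact value i₁ i₂ h12 (α₁ + κ) (α₂ + κ) Y f (a₁ * E₁) (a₂ * E₁) hf₁ hf₂ hY ho₁ ho₂ _ g s
          hs hg hgx
    obtain ⟨W, hW⟩ : 2 ∣ a₁ * E₁ + a₂ * E₁ := (ho₁.add_odd ho₂).two_dvd
    have e1 : (a₁ * E₁ + a₂ * E₁ * 1) / 2 = W := by omega
    have e3 : (a₁ * E₁ + a₂ * E₁ * 3) / 2 = W + a₂ * E₁ := by omega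
    rcases Nat.even_or_odd (W + ∑ i ∈ (univ.erase i₁).erase i₂, f i) with h | h
    · obtain ⟨w, b, hw, hK, hw2, hb, hwb, g, hg, hgx, hv⟩ := hval 3 (by decide)
      refine ⟨w, b, hw, hK, hw2, hb, hwb, g, hg, hgx, ?_⟩
      rw [hv, e3]
      apply Odd.neg_one_pow
      rw [show W + a₂ * E₁ + ∑ i ∈ (univ.erase i₁).erase i₂, f i =
        (W + ∑ i ∈ (univ.erase i₁).erase i₂, f i) + a₂ * E₁ by ring]
      exact h.add_odd ho₂
    · obtain ⟨w, b, hw, hK, hw2, hb, hwb, g, hg, hgx, hv⟩ := hval 1 odd_one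
      refine ⟨w, b, hw, hK, hw2, hb, hwb, g, hg, hgx, ?_⟩
      rw [hv, e1]
      exact h.neg_one_pow
  -- the second prime
  obtain ⟨w₂, b₂, hw₂, hK₂, hw₂2, hb₂, hwb₂, g₂, hg₂, hgy₂⟩ := facts Y w₁ hY
  have hgx₂ := order_exp i₁ i₂ (α₁ + κ) (α₂ + κ) Y hY _ g₂ s hs hg₂ hgy₂
  have hv₂ : (N : ZMod w₂) ^ b₂ = -1 := by
    have h5 := hprodpow w₂ b₂ 1
    simp only [one_mul, mul_one] at h5
    rw [h5, valueK i₁ i₂ h12 α₁ α₂ κ Y V a a₁ a₂ ha₁ ha₂ hV _ g₂ s hs hg₂ hgy₂]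
    exact hVO.neg_one_pow
  have hne : ∀ w : ℕ, w.Prime → w ≠ 2 → (-1 : ZMod w) ≠ 1 := by
    intro w hw hw2 h
    have := Fact.mk hw
    have h5 : ((2 : ℕ) : ZMod w) = 0 := by
      push_cast
      linear_combination -h
    rw [ZMod.natCast_eq_zero_iff] at h5
    exact hw2 ((Nat.prime_dvd_prime_iff_eq hw Nat.prime_two).1 h5)
  have hs2 : 0 < 2 ^ s := by positivity
  have hBb : B < b₁ := by
    by_contra hcon
    push Not at hcon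
    have : 2 ^ s * b₁ ≤ 2 ^ s * B := Nat.mul_le_mul_left _ hcon
    rw [mul_add] at hK₁
    omega
  refine ⟨b₁ * b₂, ?_, hb₁.mul hb₂, ?_⟩
  · have := hb₂.pos
    nlinarith
  · intro t r ht hr hS
    have hS' : NilSinger ((N ^ 1) ^ (b₁ * b₂ * t)) (m * r) := by rwa [pow_one]
    have hr1 := hr.pos
    refine concl (N := N) (e := 1) (m := m * r) (E₀ := 2 * E₂ * r) (j := b₁ * b₂ * t) (w₁ := w₁)
      (w₂ := w₂) hN le_rfl (by rw [hE₂]; ring) (by nlinarith) (by nlinarith) ?_ hw₁ hw₂ hw₁2 hw₂2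
      (by omega) ?_ ?_ ?_ ?_ ?_ hS'
    · have := hb₁.pos
      have := hb₂.pos
      have := ht.pos
      exact Nat.mul_pos (Nat.mul_pos (by omega) (by omega)) (by omega)
    · rw [show 2 * E₂ * r * (b₁ * b₂ * t) = (2 * E₂ * b₁) * (r * b₂ * t) by ring, pow_mul, hv₁]
      exact ((hr.mul hb₂).mul ht).neg_one_pow
    · rw [show 2 * E₂ * r * (b₁ * b₂ * t) = b₂ * (2 * (E₂ * r * b₁ * t)) by ring, pow_mul, hv₂]
      exact (even_two_mul _).neg_one_pow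
    · intro h
      apply hne w₁ hw₁ hw₁2
      have h5 : (N : ZMod w₁) ^ (2 * E₂ * (b₁ * b₂ * t)) = -1 := by
        rw [show 2 * E₂ * (b₁ * b₂ * t) = (2 * E₂ * b₁) * (b₂ * t) by ring, pow_mul, hv₁]
        exact (hb₂.mul ht).neg_one_pow
      rw [← h5, show 2 * E₂ * (b₁ * b₂ * t) = (1 * (b₁ * b₂ * t)) * (2 * E₂) by ring, pow_mul, h,
        one_pow]
    · rw [one_mul, show b₁ * b₂ * t = b₂ * (b₁ * t) by ring, pow_mul, hv₂,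
        (hb₁.mul ht).neg_one_pow]
      exact hne w₂ hw₂ hw₂2
    · intro p' hp' hdv
      obtain ⟨i, rfl⟩ := hsurj p' hp' hdv
      have hi₁ := hgx₁ i
      have hi₂ := hgx₂ i
      generalize (if i = i₁ then 2 ^ (α₁ + κ + 1) else if i = i₂ then 2 ^ (α₂ + κ + 1) else 1) = d
        at hi₁ hi₂
      refine ⟨b₁ * b₂ * d, ?_, ?_⟩
      · rw [show b₁ * b₂ * d = b₁ * d * b₂ by ring, pow_mul, pow_mul, hi₁, hb₂.neg_one_pow]
      · rw [show b₁ * b₂ * d = b₂ * d * b₁ by ring, pow_mul, pow_mul, hi₂, hb₁.neg_one_pow]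

end Pool.Agent.T2H18.TW
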