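import Pool.Agent.T2H18.TW.NilA
import Pool.Agent.T2H18.TW.Good
import Pool.Agent.T2H18.TW.Fin

/-!
# Powers in a fixed dimension, nilpotent groups: the case of an odd exponent
-/

set_option autoImplicit false

namespace Pool.Agent.T2H18.TW

open Finset Pool.Agent.TH66.SG

lemma neg_ne {w : ℕ} (hw : w.Prime) (hw2 : w ≠ 2) : (-1 : ZMod w) ≠ 1 := by
  intro h
  have := Fact.mk hw
  have h5 : ((2 : ℕ) : ZMod w) = 0 := by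
    push_cast
    linear_combination -h
  rw [ZMod.natCast_eq_zero_iff] at h5
  exact hw2 ((Nat.prime_dvd_prime_iff_eq hw Nat.prime_two).1 h5)

/-- a number of odd-power value `ε` and of two-power order -/
lemma two_power {w s L : ℕ} (hL : Odd L) (y ε : ZMod w) (h1 : y ^ 2 ^ s = 1) (h2 : y ^ L = ε)
    (h3 : ε ^ 2 = 1) : y = ε := by
  rcases Nat.eq_zero_or_pos s with rfl | hs
  · rw [pow_zero, pow_one] at h1
    rw [← h2, h1, one_pow]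
  · have hc : Nat.Coprime L (2 ^ s) :=
      Nat.Coprime.pow_right _ (Nat.coprime_two_right.mpr hL)
    obtain ⟨c, hc'⟩ := Nat.exists_mul_mod_eq_one_of_coprime (k := 2 ^ s) hc
      (Nat.one_lt_pow (by omega) (by norm_num))
    have hcm : L * c ≡ 1 [MOD 2 ^ s] := by
      rw [Nat.ModEq, hc'.2]
      exact (Nat.mod_eq_of_lt (Nat.one_lt_pow (by omega) (by norm_num))).symm
    have hodd : Odd c := by
      have h5 := hcm.of_dvd (dvd_pow_self 2 hs.ne')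
      have h6 : Odd (L * c) := Nat.odd_iff.2 h5
      exact (Nat.odd_mul.1 h6).2
    have h4 : y = y ^ (L * c) := by
      have := pow_eq_pow_of_modEq hcm h1
      rw [this, pow_one]
    rw [h4, pow_mul, h2]
    obtain ⟨r, rfl⟩ := hodd
    rw [pow_add, pow_mul, h3, one_pow, one_mul, pow_one]

/-- the order has the full `ℓ`-part -/
lemma not_one {w ℓ S s b n0 c : ℕ} (hw : w.Prime) (hℓ : ℓ.Prime)
    (hwb : w = 2 ^ s * (ℓ ^ (S + 1) * b) + 1)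
    (hn0 : (n0 : ZMod w) ≠ 0)
    (h : (n0 : ZMod w) ^ ((w - 1) / ℓ) ≠ 1) (hc : ¬ ℓ ∣ c) :
    (n0 : ZMod w) ^ (ℓ ^ S * c) ≠ 1 := by
  intro hcon
  have := Fact.mk hw
  apply h
  have h1 := orderOf_dvd_of_pow_eq_one hcon
  have h2 : orderOf (n0 : ZMod w) ∣ w - 1 :=
    orderOf_dvd_of_pow_eq_one (ZMod.pow_card_sub_one_eq_one hn0)
  have h3 : w - 1 = ℓ ^ S * (ℓ * (2 ^ s * b)) := by
    rw [hwb, Nat.add_sub_cancel]
    ring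
  have h4 : (w - 1) / ℓ = ℓ ^ S * (2 ^ s * b) := by
    rw [h3, show ℓ ^ S * (ℓ * (2 ^ s * b)) = ℓ * (ℓ ^ S * (2 ^ s * b)) by ring,
      Nat.mul_div_cancel_left _ hℓ.pos]
  rw [h4]
  apply orderOf_dvd_iff_pow_eq_one.1
  rw [h3] at h2
  have h5 := Nat.dvd_gcd h1 h2
  rw [Nat.gcd_mul_left] at h5
  refine h5.trans (Nat.mul_dvd_mul_left _ ?_)
  have hcop : Nat.Coprime ℓ c := (Nat.Prime.coprime_iff_not_dvd hℓ).2 hc
  have h6 : Nat.gcd c (ℓ * (2 ^ s * b)) = Nat.gcd c (2 ^ s * b) :=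
    Nat.Coprime.gcd_mul_left_cancel_right _ hcop
  rw [h6]
  exact Nat.gcd_dvd_right _ _

/-- the case of an odd exponent -/
theorem towerB {N e m E₀ ℓ : ℕ} (hN : 2 ≤ N) (hNp : ¬ IsPrimePow N) (he : 1 ≤ e)
    (hE : 2 * E₀ = e * m) (heE : e ≤ E₀) (hm : 3 ≤ m) (hE₀ : Odd E₀) (hℓ : ℓ.Prime)
    (hℓE : ℓ ∣ E₀) (hℓe : ¬ ℓ ∣ e) (B : ℕ) :
    ∃ i : ℕ, B < i ∧ Odd i ∧ ∀ t r : ℕ, Odd t → ¬ ℓ ∣ t → Odd r →
      ¬ NilSinger ((N ^ e) ^ (i * t)) (m * r) := by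
  classical
  have hℓo : Odd ℓ := by
    obtain ⟨c, rfl⟩ := hℓE
    exact (Nat.odd_mul.1 hE₀).1
  obtain ⟨k, p, a, i₁, i₂, h12, hp, hinj, hsurj, hprod, ha⟩ := setup hN hNp
  obtain ⟨n0, S, hn02, hNn0, hn0p⟩ := exists_root ℓ hℓ.two_le N hN
  obtain ⟨α₁, a₁, ha₁o', ha₁⟩ := Nat.exists_eq_pow_mul_and_not_dvd (ha i₁) 2 (by norm_num)
  obtain ⟨α₂, a₂, ha₂o', ha₂⟩ := Nat.exists_eq_pow_mul_and_not_dvd (ha i₂) 2 (by norm_num)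
  have ha₁o : Odd a₁ := by rwa [← Nat.not_even_iff_odd, even_iff_two_dvd]
  have ha₂o : Odd a₂ := by rwa [← Nat.not_even_iff_odd, even_iff_two_dvd]
  set s := α₁ + α₂ + 3 with hs
  have hNw : ∀ w : ℕ, (N : ZMod w) = ∏ i, (p i : ZMod w) ^ a i := by
    intro w
    have h2 := congrArg (fun a : ℕ => (a : ZMod w)) hprod
    simp only [Nat.cast_prod, Nat.cast_pow] at h2
    exact h2
  set O := ∑ i ∈ (univ.erase i₁).erase i₂, a i with hO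
  have hP : 0 < ℓ ^ (S + 1) := pow_pos hℓ.pos _
  have hPo : Odd (ℓ ^ (S + 1)) := hℓo.pow
  -- the facts for a prime `w` of the type `Y`
  have facts : ∀ Y K₀ : ℕ, Odd Y → n0 ≤ K₀ → ∃ w b : ℕ, w.Prime ∧ K₀ < w ∧ w ≠ 2 ∧ Odd b ∧
      ¬ ℓ ∣ b ∧ w = 2 ^ s * (ℓ ^ (S + 1) * b) + 1 ∧
      (N : ZMod w) ^ (ℓ ^ (S + 1) * b) = (-1) ^ ((a₁ + a₂ * Y) / 2 + O) ∧
      (∀ i, ((p i : ZMod w) ^ (ℓ ^ (S + 1) * b)) ^
        (if i = i₁ then 2 ^ (α₁ + 1) else if i = i₂ then 2 ^ (α₂ + 1) else 1) = -1) ∧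
      (∀ c, ¬ ℓ ∣ c → (n0 : ZMod w) ^ (ℓ ^ S * c) ≠ 1) ∧ (n0 : ZMod w) ^ (w - 1) = 1 := by
    intro Y K₀ hY hK
    obtain ⟨w, b, hw, hKw, hb, hℓb, hwb, g, hg, hgx, hnn⟩ :=
      goodL (S := S) (s := s) (by omega) hℓ hℓo (by omega : 0 < n0)
        (not_rat_pow hℓ.pos hn0p) p hp hinj (xx i₁ i₂ s α₁ α₂ Y) K₀
    have hn0w : (n0 : ZMod w) ≠ 0 := by
      intro h
      rw [ZMod.natCast_eq_zero_iff] at h
      have := Nat.le_of_dvd (by omega) h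
      omega
    have := Fact.mk hw
    refine ⟨w, b, hw, hKw, ?_, hb, hℓb, hwb, ?_, ?_, ?_, ?_⟩
    · intro h
      have h2 : 2 ^ 1 ≤ 2 ^ s := Nat.pow_le_pow_right (by norm_num) (by omega)
      have h3 := hb.pos
      have h5 : 0 < ℓ ^ (S + 1) * b := by positivity
      have h4 : 2 ^ s * 1 ≤ 2 ^ s * (ℓ ^ (S + 1) * b) := Nat.mul_le_mul_left _ h5
      omega
    · rw [← value i₁ i₂ h12 α₁ α₂ Y a a₁ a₂ ha₁ ha₂ hY ha₁o ha₂o _ g s hs hg hgx, hNw w,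
        ← Finset.prod_pow]
      refine Finset.prod_congr rfl fun i _ => ?_
      rw [← pow_mul, ← pow_mul]
      congr 1
      ring
    · exact order_exp i₁ i₂ α₁ α₂ Y hY _ g s hs hg hgx
    · intro c hc
      exact not_one hw hℓ hwb hn0w hnn hc
    · exact ZMod.pow_card_sub_one_eq_one hn0w
  set K₀ := 2 ^ s * (ℓ ^ (S + 1) * (B + 1)) + n0 with hK₀
  obtain ⟨w, b, hw, hKw, hw2, hb, hℓb, hwb, hz, hpw, hnn, hn1⟩ := facts 1 K₀ odd_one (by omega)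
  obtain ⟨w', b', hw', hKw', hw2', hb', hℓb', hwb', hz', hpw', hnn', hn1'⟩ :=
    facts 3 w (by decide) (by omega)
  -- the general conclusion
  have concl' : ∀ w₁ w₂ b₁ b₂ : ℕ, w₁.Prime → w₂.Prime → w₁ ≠ 2 → w₂ ≠ 2 → w₁ ≠ w₂ →
      Odd b₁ → Odd b₂ → ¬ ℓ ∣ b₁ → ¬ ℓ ∣ b₂ → w₁ = 2 ^ s * (ℓ ^ (S + 1) * b₁) + 1 →
      w₂ = 2 ^ s * (ℓ ^ (S + 1) * b₂) + 1 →
      (N : ZMod w₁) ^ (ℓ ^ (S + 1) * b₁) = -1 → (N : ZMod w₂) ^ (ℓ ^ (S + 1) * b₂) = 1 →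
      (∀ i, ((p i : ZMod w₁) ^ (ℓ ^ (S + 1) * b₁)) ^
        (if i = i₁ then 2 ^ (α₁ + 1) else if i = i₂ then 2 ^ (α₂ + 1) else 1) = -1) →
      (∀ i, ((p i : ZMod w₂) ^ (ℓ ^ (S + 1) * b₂)) ^
        (if i = i₁ then 2 ^ (α₁ + 1) else if i = i₂ then 2 ^ (α₂ + 1) else 1) = -1) →
      (∀ c, ¬ ℓ ∣ c → (n0 : ZMod w₁) ^ (ℓ ^ S * c) ≠ 1) →
      (∀ c, ¬ ℓ ∣ c → (n0 : ZMod w₂) ^ (ℓ ^ S * c) ≠ 1) →
      (n0 : ZMod w₁) ^ (w₁ - 1) = 1 → (n0 : ZMod w₂) ^ (w₂ - 1) = 1 →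
      ∀ t r : ℕ, Odd t → ¬ ℓ ∣ t → Odd r →
        ¬ NilSinger ((N ^ e) ^ (b₁ * b₂ * t)) (m * r) := by
    intro w₁ w₂ b₁ b₂ h1 h2 ho₁ ho₂ hne hb₁ hb₂ hl₁ hl₂ hwb₁ hwb₂ hz₁ hz₂ hq₁ hq₂ hc₁ hc₂ hf₁ hf₂
      t r ht hlt hr
    have hr1 := hr.pos
    obtain ⟨E₁, hE₁⟩ := hℓE
    have hE₁o : Odd E₁ := by
      rw [hE₁] at hE₀
      exact (Nat.odd_mul.1 hE₀).2
    have hval : ∀ w b b' : ℕ, w = 2 ^ s * (ℓ ^ (S + 1) * b) + 1 → (n0 : ZMod w) ^ (w - 1) = 1 →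
        Odd b' → ∀ ε : ZMod w, ε ^ 2 = 1 → (N : ZMod w) ^ (ℓ ^ (S + 1) * b) = ε →
        (N : ZMod w) ^ (E₀ * r * (b * b' * t)) = ε := by
      intro w b b' hwb hf hb' ε hε hz
      apply two_power (L := ℓ ^ S) (s := s) hℓo.pow _ ε _ _ hε
      · rw [hNn0, Nat.cast_pow, ← pow_mul, ← pow_mul,
          show ℓ ^ S * (E₀ * r * (b * b' * t) * 2 ^ s) =
            (2 ^ s * (ℓ ^ (S + 1) * b)) * (E₁ * r * b' * t) by
            rw [hE₁]; ring, pow_mul]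
        rw [show 2 ^ s * (ℓ ^ (S + 1) * b) = w - 1 by omega, hf, one_pow]
      · rw [← pow_mul, show E₀ * r * (b * b' * t) * ℓ ^ S =
            (ℓ ^ (S + 1) * b) * (E₁ * r * b' * t) by rw [hE₁]; ring, pow_mul, hz]
        obtain ⟨c, hc⟩ := ((hE₁o.mul hr).mul hb').mul ht
        rw [hc, pow_add, pow_mul, hε, one_pow, one_mul, pow_one]
    have hne1 : ∀ w, (∀ c, ¬ ℓ ∣ c → (n0 : ZMod w) ^ (ℓ ^ S * c) ≠ 1) →
        (N : ZMod w) ^ (e * (b₁ * b₂ * t)) ≠ 1 := by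
      intro w hc
      rw [hNn0, Nat.cast_pow, ← pow_mul]
      apply hc
      rw [hℓ.dvd_mul, hℓ.dvd_mul, hℓ.dvd_mul]
      tauto
    refine concl (E₀ := E₀ * r) hN he (by rw [← mul_assoc, hE]; ring) (by nlinarith)
      (by nlinarith) ?_ h1 h2 ho₁ ho₂ hne ?_ ?_ (hne1 w₁ hc₁) (hne1 w₂ hc₂) ?_
    · have := hb₁.pos
      have := hb₂.pos
      have := ht.pos
      exact Nat.mul_pos (Nat.mul_pos (by omega) (by omega)) (by omega)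
    · exact hval w₁ b₁ b₂ hwb₁ hf₁ hb₂ (-1) (by ring) hz₁
    · rw [show E₀ * r * (b₁ * b₂ * t) = E₀ * r * (b₂ * b₁ * t) by ring]
      exact hval w₂ b₂ b₁ hwb₂ hf₂ hb₁ 1 (by ring) hz₂
    · intro p' hp' hdv
      obtain ⟨i, rfl⟩ := hsurj p' hp' hdv
      have hi₁ := hq₁ i
      have hi₂ := hq₂ i
      generalize (if i = i₁ then 2 ^ (α₁ + 1) else if i = i₂ then 2 ^ (α₂ + 1) else 1) = d
        at hi₁ hi₂
      refine ⟨ℓ ^ (S + 1) * b₁ * d * b₂, ?_, ?_⟩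
      · rw [pow_mul, pow_mul, hi₁, hb₂.neg_one_pow]
      · rw [show ℓ ^ (S + 1) * b₁ * d * b₂ = ℓ ^ (S + 1) * b₂ * d * b₁ by ring, pow_mul, pow_mul,
          hi₂, hb₁.neg_one_pow]
  -- parities
  have hBb : B < b := by
    by_contra hcon
    push Not at hcon
    have : 2 ^ s * (ℓ ^ (S + 1) * b) ≤ 2 ^ s * (ℓ ^ (S + 1) * B) := by gcongr
    have h5 : 2 ^ s * (ℓ ^ (S + 1) * (B + 1)) = 2 ^ s * (ℓ ^ (S + 1) * B) + 2 ^ s * ℓ ^ (S + 1) := by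
      ring
    have h6 : 0 < 2 ^ s * ℓ ^ (S + 1) := by positivity
    omega
  have hV : (a₁ + a₂ * 3) / 2 + O = ((a₁ + a₂ * 1) / 2 + O) + a₂ := by
    obtain ⟨V, hV⟩ : 2 ∣ a₁ + a₂ := (ha₁o.add_odd ha₂o).two_dvd
    omega
  rw [hV] at hz'
  generalize (a₁ + a₂ * 1) / 2 + O = V at hz hz'
  have hbpos := hb.pos
  have hbpos' := hb'.pos
  rcases Nat.even_or_odd V with hVe | hVo
  · rw [hVe.neg_one_pow] at hz
    rw [(hVe.add_odd ha₂o).neg_one_pow] at hz'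
    refine ⟨b' * b, ?_, hb'.mul hb, concl' w' w b' b hw' hw hw2' hw2 (by omega) hb' hb hℓb' hℓb
      hwb' hwb hz' hz hpw' hpw hnn' hnn hn1' hn1⟩
    nlinarith
  · rw [hVo.neg_one_pow] at hz
    rw [(hVo.add_odd ha₂o).neg_one_pow] at hz'
    refine ⟨b * b', ?_, hb.mul hb', concl' w w' b b' hw hw' hw2 hw2' (by omega) hb hb' hℓb hℓb'
      hwb hwb' hz hz' hpw hpw' hnn hnn' hn1 hn1'⟩
    nlinarith

end Pool.Agent.T2H18.TW
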