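import Pool.Agent.T2H18.TW.Comb

/-!
# The Chebotarev step: primes with odd order of `n` divisible by `ℓ`, even order of `p`
-/

set_option autoImplicit false

namespace Pool.Agent.T2H18.TW

open Pool.Agent.W688.VT NumberField

/-- the arithmetic of the `ℓ`-part -/
lemma arithL (q : ℕ) [hq : Fact q.Prime] (k : Type) [Field k] [Algebra (ZMod q) k]
    (ℓ s n0 : ℕ) (hℓ : ℓ.Prime) (x w : k) (hx : IsPrimitiveRoot x (ℓ ^ (s + 1)))
    (hxq : x ^ q = x) (hw : w ^ ℓ = n0) (hn0 : ((n0 : ℕ) : ZMod q) ≠ 0) (hwq : w ^ q ≠ w) :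
    ℓ ∣ orderOf ((n0 ^ ℓ ^ s : ℕ) : ZMod q) := by
  have hq0 := hq.out.pos
  have hq1 : q = (q - 1) + 1 := by omega
  have hx0 : x ≠ 0 := hx.ne_zero (pow_ne_zero _ hℓ.ne_zero)
  have h1 : x ^ (q - 1) = 1 := by
    rw [hq1, pow_succ] at hxq
    exact mul_right_cancel₀ hx0 (by rw [hxq, one_mul])
  have h2 : ℓ ^ (s + 1) ∣ q - 1 := hx.dvd_of_pow_eq_one _ h1
  by_contra hcon
  set D := orderOf ((n0 ^ ℓ ^ s : ℕ) : ZMod q) with hD
  have hn : ((n0 ^ ℓ ^ s : ℕ) : ZMod q) ≠ 0 := by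
    rw [Nat.cast_pow]
    exact pow_ne_zero _ hn0
  have h3 : D ∣ q - 1 := orderOf_dvd_of_pow_eq_one (ZMod.pow_card_sub_one_eq_one hn)
  have h4 : Nat.Coprime D (ℓ ^ (s + 1)) :=
    Nat.Coprime.pow_right _ ((Nat.coprime_comm.1 ((Nat.Prime.coprime_iff_not_dvd hℓ).2 hcon)))
  obtain ⟨c, hc⟩ := h4.mul_dvd_of_dvd_of_dvd h3 h2
  have h5 : ((n0 ^ ℓ ^ s : ℕ) : k) ^ D = 1 := by
    have h6 : ((n0 ^ ℓ ^ s : ℕ) : ZMod q) ^ D = 1 := pow_orderOf_eq_one _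
    have h7 := congrArg (algebraMap (ZMod q) k) h6
    rwa [map_pow, map_natCast, map_one] at h7
  apply hwq
  rw [hq1, pow_succ, hc]
  have h8 : w ^ (D * ℓ ^ (s + 1) * c) = ((n0 ^ ℓ ^ s : ℕ) : k) ^ (D * c) := by
    rw [Nat.cast_pow, ← hw]
    ring
  rw [h8, pow_mul, h5, one_pow, one_mul]

/-- generic form -/
lemma main_gen {A : Type} [Field A] [CharZero A] [IsAlgClosed A] [Algebra.IsAlgebraic ℚ A]
    (p a u e ℓ s n0 : ℕ) (σ : A ≃ₐ[ℚ] A) (ζ ν υ w : A) (hp : p.Prime) (hu : 2 ≤ u)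
    (hℓ : ℓ.Prime) (hℓ2 : Odd ℓ) (hn0 : 0 < n0)
    (prim : IsPrimitiveRoot ζ (2 ^ (e + 1) * ℓ ^ (s + 1)))
    (rn : ν ^ 2 ^ e = ((p ^ a * u : ℕ) : A))
    (ru : υ ^ 2 ^ e = (u : A))
    (rw0 : w ^ ℓ = (n0 : A))
    (z2 : σ (ζ ^ 2) = ζ ^ 2)
    (z1 : σ ζ ≠ ζ)
    (sn : σ ν = ν)
    (su : σ υ ≠ υ)
    (sw : σ w ≠ w) (B : ℕ) : ∃ q j : ℕ, B < q ∧ q.Prime ∧
    Odd (orderOf ((p ^ a * u : ℕ) : ZMod q)) ∧ (p : ZMod q) ^ j = -1 ∧
    ℓ ∣ orderOf ((n0 ^ ℓ ^ s : ℕ) : ZMod q) := by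
  obtain ⟨q, hq, L, φ, hqB, hSL, hφ⟩ := red σ {ζ, ν, υ, w} (by simp)
    (max (max B (max n0 (ℓ ^ (s + 1)))) (max 2 (p ^ a * u)))
  simp only [max_lt_iff] at hqB
  obtain ⟨⟨hqB, hqn0, hqℓ⟩, hq2, hqn⟩ := hqB
  have hζL : ζ ∈ L := hSL (by simp)
  have hνL : ν ∈ L := hSL (by simp)
  have hυL : υ ∈ L := hSL (by simp)
  have hwL : w ∈ L := hSL (by simp)
  have hℓs : 0 < ℓ ^ (s + 1) := pow_pos hℓ.pos _
  -- integral lifts
  have lift : ∀ (x : A) (hx : x ∈ L) (m : ℤ) (N : ℕ), N ≠ 0 → x ^ N = (m : A) →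
      ∃ o : 𝓞 L, ((o : L) : A) = x ∧ o ^ N = (m : 𝓞 L) := by
    intro x hx m N hN hxm
    have h0 : (⟨x, hx⟩ : L) ^ N = (m : L) := by
      apply Subtype.ext
      simpa using hxm
    have h1 : IsIntegral ℤ (⟨x, hx⟩ : L) := by
      apply IsIntegral.of_pow (Nat.pos_of_ne_zero hN)
      rw [h0]
      exact isIntegral_algebraMap (R := ℤ) (x := m)
    refine ⟨⟨⟨x, hx⟩, h1⟩, rfl, ?_⟩
    apply RingOfIntegers.coe_injective
    rw [map_pow, map_intCast]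
    exact h0
  have hζe : ζ ^ (2 ^ e * ℓ ^ (s + 1)) = -1 := neg_one_of_prim hℓs prim
  obtain ⟨oz, hoz, hoze⟩ := lift ζ hζL (-1) (2 ^ e * ℓ ^ (s + 1)) (by positivity)
    (by rw [hζe]; simp)
  obtain ⟨ov, hov, hove⟩ := lift ν hνL ((p ^ a * u : ℕ) : ℤ) (2 ^ e) (by positivity)
    (by rw [rn]; simp)
  obtain ⟨ow, how, howe⟩ := lift υ hυL ((u : ℕ) : ℤ) (2 ^ e) (by positivity)
    (by rw [ru]; simp)
  obtain ⟨o0, ho0, ho0e⟩ := lift w hwL ((n0 : ℕ) : ℤ) ℓ hℓ.ne_zero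
    (by rw [rw0]; simp)
  have hu0 : (u : A) ≠ 0 := by
    have : u ≠ 0 := by omega
    exact_mod_cast this
  have hυ0 : υ ≠ 0 := by
    intro h
    rw [h, zero_pow (by positivity)] at ru
    exact hu0 ru.symm
  have hζ0 : ζ ≠ 0 := prim.ne_zero (by positivity)
  have hLodd : Odd (ℓ ^ (s + 1)) := hℓ2.pow
  -- σ ζ = -ζ
  have hσζ : σ ζ = -ζ := by
    have h1 : (σ ζ) ^ 2 = ζ ^ 2 := by rw [← map_pow]; exact z2
    rcases sq_eq_sq_iff_eq_or_eq_neg.mp h1 with h | h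
    · exact absurd h z1
    · exact h
  -- the part of order a power of two
  have hprim2 : IsPrimitiveRoot ((ζ ^ ℓ ^ (s + 1)) ^ 2) (2 ^ e) := by
    rw [← pow_mul]
    exact prim.pow (by positivity)
      (show 2 ^ (e + 1) * ℓ ^ (s + 1) = ℓ ^ (s + 1) * 2 * 2 ^ e by ring)
  obtain ⟨i, hi, hiυ⟩ : ∃ i < 2 ^ e, ((ζ ^ ℓ ^ (s + 1)) ^ 2) ^ i = σ υ / υ := by
    have h1 : (σ υ / υ) ^ 2 ^ e = 1 := by
      rw [div_pow, ← map_pow, ru, map_natCast, div_self hu0]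
    have : NeZero (2 ^ e) := ⟨by positivity⟩
    exact hprim2.eq_pow_of_pow_eq_one h1
  have hσυ : σ υ = (ζ ^ ℓ ^ (s + 1)) ^ (2 * i) * υ := by
    rw [pow_mul _ 2 i, hiυ, div_mul_cancel₀ _ hυ0]
  have hi0 : i ≠ 0 := by
    rintro rfl
    apply su
    rw [hσυ]; simp
  set oy : 𝓞 L := oz ^ ℓ ^ (s + 1) with hoy
  have hoyA : ((oy : L) : A) = ζ ^ ℓ ^ (s + 1) := by
    rw [hoy]
    push_cast
    rw [hoz]
  have hz1 : φ oy ^ 2 ^ e = -1 := by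
    rw [← map_pow, hoy, ← pow_mul, mul_comm (ℓ ^ (s + 1)), hoze]; simp
  have hzq : φ oy ^ q = - φ oy := by
    rw [← map_neg]
    symm
    apply hφ
    rw [hoyA, map_pow, hσζ, hLodd.neg_pow, ← hoyA]
    simp
  have hv1 : φ ov ^ 2 ^ e = ((p ^ a * u : ℕ) : AlgebraicClosure (ZMod q)) := by
    rw [← map_pow, hove, map_intCast, Int.cast_natCast]
  have hvq : φ ov ^ q = φ ov := by
    symm
    apply hφ
    rw [hov, sn]
  have hw1 : φ ow ^ 2 ^ e = ((u : ℕ) : AlgebraicClosure (ZMod q)) := by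
    rw [← map_pow, howe, map_intCast, Int.cast_natCast]
  have hwq : φ ow ^ q = φ oy ^ (2 * i) * φ ow := by
    rw [← map_pow φ oy, ← map_mul]
    symm
    apply hφ
    rw [how, hσυ, ← hoyA, ← how]
    simp
  obtain ⟨h1, j, h2⟩ := arith q (AlgebraicClosure (ZMod q)) p a u e i hp hu hq2 hqn
    (φ oy) (φ ov) (φ ow) hz1 hzq hv1 hvq hw1 hwq hi0 hi
  refine ⟨q, j, hqB, hq.out, h1, h2, ?_⟩
  -- the part of order a power of `ℓ`
  have hch : CharP (AlgebraicClosure (ZMod q)) q :=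
    charP_of_injective_algebraMap (algebraMap (ZMod q) (AlgebraicClosure (ZMod q))).injective q
  have hprimO : IsPrimitiveRoot oz (2 ^ (e + 1) * ℓ ^ (s + 1)) := by
    have h3 : Function.Injective (fun o : 𝓞 L => ((o : L) : A)) := by
      intro a b hab
      exact RingOfIntegers.coe_injective (Subtype.ext hab)
    have h4 : ∀ m : ℕ, ((oz ^ m : 𝓞 L) : L) = ((oz : L)) ^ m := fun m => by push_cast; rfl
    refine ⟨h3 ?_, fun m hm => prim.dvd_of_pow_eq_one m ?_⟩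
    · change (((oz ^ (2 ^ (e + 1) * ℓ ^ (s + 1)) : 𝓞 L) : L) : A) = (((1 : 𝓞 L) : L) : A)
      rw [h4]
      push_cast
      rw [hoz, prim.pow_eq_one]
    · have h5 := congrArg (fun o : 𝓞 L => ((o : L) : A)) hm
      change (((oz ^ m : 𝓞 L) : L) : A) = (((1 : 𝓞 L) : L) : A) at h5
      rw [h4] at h5
      push_cast at h5
      rw [hoz] at h5
      exact h5
  have hprimO' : IsPrimitiveRoot (oz ^ 2 ^ (e + 1)) (ℓ ^ (s + 1)) :=
    hprimO.pow (by positivity) rfl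
  have hNe : NeZero ((ℓ ^ (s + 1) : ℕ) : AlgebraicClosure (ZMod q)) := ⟨by
    intro h
    rw [CharP.cast_eq_zero_iff (AlgebraicClosure (ZMod q)) q] at h
    exact absurd (Nat.le_of_dvd hℓs h) (by omega)⟩
  have hNe' : NeZero ((ℓ ^ (s + 1) : ℕ) : 𝓞 L) := ⟨by
    have := hℓs.ne'
    exact_mod_cast this⟩
  have hx : IsPrimitiveRoot (φ (oz ^ 2 ^ (e + 1))) (ℓ ^ (s + 1)) := by
    rw [← Polynomial.isRoot_cyclotomic_iff, ← Polynomial.map_cyclotomic _ φ]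
    exact (Polynomial.isRoot_cyclotomic_iff.2 hprimO').map
  have hxq : (φ (oz ^ 2 ^ (e + 1))) ^ q = φ (oz ^ 2 ^ (e + 1)) := by
    symm
    apply hφ
    have h5 : (((oz ^ 2 ^ (e + 1) : 𝓞 L) : L) : A) = (ζ ^ 2) ^ 2 ^ e := by
      push_cast
      rw [hoz]
      ring
    rw [h5, map_pow, z2]
  have hw0 : (φ o0) ^ ℓ = ((n0 : ℕ) : AlgebraicClosure (ZMod q)) := by
    rw [← map_pow, ho0e, map_intCast, Int.cast_natCast]
  have hn0q : ((n0 : ℕ) : ZMod q) ≠ 0 := by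
    intro h
    rw [ZMod.natCast_eq_zero_iff] at h
    exact absurd (Nat.le_of_dvd hn0 h) (by omega)
  have hn0k : ((n0 : ℕ) : AlgebraicClosure (ZMod q)) ≠ 0 := by
    intro h
    apply hn0q
    apply (algebraMap (ZMod q) (AlgebraicClosure (ZMod q))).injective
    rw [map_natCast, map_zero]
    exact h
  have hn0A : (n0 : A) ≠ 0 := by exact_mod_cast hn0.ne'
  have hwA0 : w ≠ 0 := by
    intro h
    rw [h, zero_pow hℓ.ne_zero] at rw0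
    exact hn0A rw0.symm
  -- σ w = θ w
  have hpriml : IsPrimitiveRoot (ζ ^ (2 ^ (e + 1) * ℓ ^ s)) ℓ :=
    prim.pow (by positivity) (by ring)
  have hNl : NeZero ℓ := ⟨hℓ.ne_zero⟩
  obtain ⟨r, hr, hrw⟩ : ∃ r < ℓ, (ζ ^ (2 ^ (e + 1) * ℓ ^ s)) ^ r = σ w / w := by
    have h1 : (σ w / w) ^ ℓ = 1 := by
      rw [div_pow, ← map_pow, rw0, map_natCast, div_self hn0A]
    exact hpriml.eq_pow_of_pow_eq_one h1
  have hr0 : r ≠ 0 := by
    rintro rfl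
    rw [pow_zero] at hrw
    exact sw ((div_eq_one_iff_eq hwA0).1 hrw.symm)
  have hw0k : φ o0 ≠ 0 := by
    intro h
    rw [h, zero_pow hℓ.ne_zero] at hw0
    exact hn0k hw0.symm
  have hwq' : (φ o0) ^ q ≠ φ o0 := by
    have h5 : φ ((oz ^ 2 ^ (e + 1)) ^ (ℓ ^ s * r) * o0) = (φ o0) ^ q := by
      apply hφ
      rw [ho0]
      push_cast
      rw [hoz, ho0, (div_eq_iff hwA0).1 hrw.symm]
      congr 1
      ring
    rw [← h5, map_mul, map_pow]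
    intro h6
    have h7 : φ (oz ^ 2 ^ (e + 1)) ^ (ℓ ^ s * r) = 1 :=
      mul_right_cancel₀ hw0k (by rw [h6, one_mul])
    have h8 := hx.dvd_of_pow_eq_one _ h7
    rw [pow_succ] at h8
    have h9 := Nat.dvd_of_mul_dvd_mul_left (pow_pos hℓ.pos s) h8
    exact absurd (Nat.le_of_dvd (by omega) h9) (by omega)
  exact arithL q (AlgebraicClosure (ZMod q)) ℓ s n0 hℓ _ _ hx hxq hw0 hn0q hwq'

end Pool.Agent.T2H18.TW
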