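import Pool.Agent.W688.VT.VF

/-!
# Kummer theory over cyclotomic fields of order `2 ^ (e + 1) * L`, `L` odd
-/

set_option autoImplicit false

namespace Pool.Agent.T2H18.TW

open Pool.Agent.W688.VT

section gen

variable {A : Type} [Field A] [CharZero A]

/-- the value `-1` -/
lemma neg_one_of_prim {ζ : A} {e L : ℕ} (hL : 0 < L) (hζ : IsPrimitiveRoot ζ (2 ^ (e + 1) * L)) :
    ζ ^ (2 ^ e * L) = -1 := by
  have h1 : (ζ ^ (2 ^ e * L)) ^ 2 = 1 := by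
    rw [← pow_mul, show 2 ^ e * L * 2 = 2 ^ (e + 1) * L by ring]
    exact hζ.pow_eq_one
  rw [sq] at h1
  rcases mul_self_eq_one_iff.mp h1 with h | h
  · refine absurd h (hζ.pow_ne_one_of_pos_of_lt (by positivity) ?_)
    have : 0 < 2 ^ e * L := by positivity
    rw [pow_succ]
    nlinarith
  · exact h

/-- step 1 -/
lemma step1 [IsAlgClosed A] [Algebra.IsAlgebraic ℚ A] (e n L : ℕ) (he : 3 ≤ e) (hn : 0 < n)
    (hL : 0 < L)
    (ζ ν : A) (hζ : IsPrimitiveRoot ζ (2 ^ (e + 1) * L)) (c : A ≃ₐ[ℚ] A) (hcζ : c ζ = ζ⁻¹)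
    (hν : ν ^ 2 ^ e = n) (hcν : c ν = ν) :
    ∃ τ : A ≃ₐ[ℚ] A, τ (ζ ^ 2) = ζ ^ 2 ∧ τ ν = ν ∧ τ ζ ≠ ζ := by
  by_contra hcon
  push Not at hcon
  have hζ0 : ζ ≠ 0 := hζ.ne_zero (by positivity)
  have hnA : (n : A) ≠ 0 := by exact_mod_cast hn.ne'
  have hν0 : ν ≠ 0 := by
    intro h
    rw [h, zero_pow (by positivity)] at hν
    exact hnA hν.symm
  have hNe : NeZero (2 ^ e * L) := ⟨by positivity⟩
  have hξ : IsPrimitiveRoot (ζ ^ 2) (2 ^ e * L) :=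
    hζ.pow (by positivity) (show 2 ^ (e + 1) * L = 2 * (2 ^ e * L) by ring)
  have hζe : ζ ^ (2 ^ e * L) = -1 := neg_one_of_prim hL hζ
  have hνM : ν ^ (2 ^ e * L) = (n : A) ^ L := by rw [pow_mul, hν]
  obtain ⟨j, hj⟩ := stepK (ζ ^ 2) (2 ^ e * L) hξ ν ζ hν0 hζ0
    (fun τ _ => by rw [hνM, map_pow, map_natCast]) (fun τ _ => by rw [hζe, map_neg, map_one])
    (fun τ hτ hτν => hcon τ hτ hτν)
  have hr0 : ν ^ j ≠ 0 := pow_ne_zero _ hν0
  have hrH : ∀ τ : A ≃ₐ[ℚ] A, τ ζ = ζ → τ (ν ^ j) = ν ^ j := by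
    intro τ hτ
    have h1 := hj τ (by change τ (ζ ^ 2) = ζ ^ 2; rw [map_pow, hτ])
    rw [map_div₀, hτ] at h1
    have hτr : τ (ν ^ j) ≠ 0 := by rw [Ne, EmbeddingLike.map_eq_zero_iff]; exact hr0
    rw [div_eq_div_iff hτr hr0] at h1
    exact (mul_left_cancel₀ hζ0 h1).symm
  have hR := stepR ζ (2 ^ (e + 1) * L) (by positivity) hζ c hcζ (ν ^ j) hr0 hrH
    (by rw [map_pow, hcν]) (by
      intro τ
      have : (ν ^ j) ^ (2 ^ (e + 1) * L) = ((n : A) ^ j) ^ (2 * L) := by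
        rw [← hν]; ring
      rw [this, map_pow, map_pow, map_natCast])
  obtain ⟨τ, hτ⟩ := exAut ζ (2 ^ (e + 1) * L) (1 + 2 ^ (e - 1) * L) (by positivity) hζ (by
    rw [Nat.coprime_mul_iff_right]
    constructor
    · apply Nat.Coprime.pow_right
      rw [Nat.coprime_two_right]
      have : Even (2 ^ (e - 1) * L) := (Nat.even_pow.mpr ⟨even_two, by omega⟩).mul_right _
      exact this.one_add
    · simp)
  -- τ ^ 2
  have h1 : τ (τ (ν ^ j)) = ν ^ j := by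
    rcases hR τ with h | h
    · rw [h, h]
    · rw [h, map_neg, h, neg_neg]
  have h2 : τ (τ ζ) = -ζ := by
    rw [hτ, map_pow, hτ, ← pow_mul]
    have h3 : (1 + 2 ^ (e - 1) * L) * (1 + 2 ^ (e - 1) * L) =
        1 + 2 ^ e * L + (2 ^ (e + 1) * L) * (2 ^ (e - 3) * L) := by
      obtain ⟨d, rfl⟩ : ∃ d, e = d + 3 := ⟨e - 3, by omega⟩
      simp only [Nat.add_sub_cancel, show d + 3 - 1 = d + 2 by omega]
      ring
    rw [h3, pow_add, pow_mul ζ (2 ^ (e + 1) * L), hζ.pow_eq_one, one_pow, mul_one, pow_add, hζe]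
    ring
  have h3 : τ (τ (ζ ^ 2)) = ζ ^ 2 := by
    rw [map_pow, map_pow, h2]; ring
  have h4 := hj (τ.trans τ) h3
  change τ (τ (ζ / ν ^ j)) = ζ / ν ^ j at h4
  rw [map_div₀, map_div₀, h1, h2, div_left_inj' hr0] at h4
  have h5 : (2 : A) * ζ = 0 := by linear_combination (-1 : A) * h4
  rcases mul_eq_zero.mp h5 with h | h
  · exact two_ne_zero h
  · exact hζ0 h

/-- step 2 -/
lemma step2 [IsAlgClosed A] [Algebra.IsAlgebraic ℚ A] (p a u l e L : ℕ) (he : 3 ≤ e)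
    (hL : 0 < L)
    (hp : p.Prime) (ha : Odd a) (hu : 2 ≤ u) (hpu : ¬ p ∣ u) (hl : l.Prime) (hlu : l ∣ u)
    (hle : padicValNat l u < 2 ^ (e - 1))
    (ζ ν υ : A) (hζ : IsPrimitiveRoot ζ (2 ^ (e + 1) * L)) (c : A ≃ₐ[ℚ] A) (hcζ : c ζ = ζ⁻¹)
    (hν : ν ^ 2 ^ e = ((p ^ a * u : ℕ) : A)) (hcν : c ν = ν) (hυ : υ ^ 2 ^ e = u)
    (hcυ : c υ = υ) :
    ∃ τ : A ≃ₐ[ℚ] A, τ (ζ ^ 2) = ζ ^ 2 ∧ τ ν = ν ∧ τ υ ≠ υ := by
  by_contra hcon
  push Not at hcon
  have hζ0 : ζ ≠ 0 := hζ.ne_zero (by positivity)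
  have hpa : 0 < p ^ a := pow_pos hp.pos a
  have hnA : ((p ^ a * u : ℕ) : A) ≠ 0 := by
    have : p ^ a * u ≠ 0 := by positivity
    exact_mod_cast this
  have huA : (u : A) ≠ 0 := by
    have : u ≠ 0 := by positivity
    exact_mod_cast this
  have hν0 : ν ≠ 0 := by
    intro h
    rw [h, zero_pow (by positivity)] at hν
    exact hnA hν.symm
  have hυ0 : υ ≠ 0 := by
    intro h
    rw [h, zero_pow (by positivity)] at hυ
    exact huA hυ.symm
  have hNe : NeZero (2 ^ e * L) := ⟨by positivity⟩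
  have hξ : IsPrimitiveRoot (ζ ^ 2) (2 ^ e * L) :=
    hζ.pow (by positivity) (show 2 ^ (e + 1) * L = 2 * (2 ^ e * L) by ring)
  obtain ⟨j, hj⟩ := stepK (ζ ^ 2) (2 ^ e * L) hξ ν υ hν0 hυ0
    (fun τ _ => by rw [pow_mul, hν, map_pow, map_natCast])
    (fun τ _ => by rw [pow_mul, hυ, map_pow, map_natCast])
    (fun τ hτ hτν => hcon τ hτ hτν)
  have hr0 : υ / ν ^ j ≠ 0 := div_ne_zero hυ0 (pow_ne_zero _ hν0)
  have hrH : ∀ τ : A ≃ₐ[ℚ] A, τ ζ = ζ → τ (υ / ν ^ j) = υ / ν ^ j := by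
    intro τ hτ
    exact hj τ (by change τ (ζ ^ 2) = ζ ^ 2; rw [map_pow, hτ])
  have hrpow : (υ / ν ^ j) ^ 2 ^ e = (u : A) / ((p ^ a * u : ℕ) : A) ^ j := by
    rw [div_pow, hυ, ← hν]; ring
  have hR := stepR ζ (2 ^ (e + 1) * L) (by positivity) hζ c hcζ (υ / ν ^ j) hr0 hrH
    (by rw [map_div₀, map_pow, hcν, hcυ]) (by
      intro τ
      have : (υ / ν ^ j) ^ (2 ^ (e + 1) * L) =
          ((u : A) / ((p ^ a * u : ℕ) : A) ^ j) ^ (2 * L) := by
        rw [← hrpow]; ring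
      rw [this, map_pow, map_div₀, map_pow, map_natCast, map_natCast])
  have : IsAlgClosure ℚ A := ⟨inferInstance, inferInstance⟩
  have hN : Normal ℚ A := IsAlgClosure.normal ℚ A
  have hG : IsGalois ℚ A := ⟨⟩
  have hs : (υ / ν ^ j) ^ 2 ∈ (⊥ : IntermediateField ℚ A) := by
    rw [InfiniteGalois.mem_bot_iff_fixed]
    intro τ
    rw [map_pow]
    rcases hR τ with h | h
    · rw [h]
    · rw [h]; ring
  obtain ⟨s, hs⟩ := IntermediateField.mem_bot.mp hs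
  have h1 : (s ^ 2 ^ (e - 1) * ((p ^ a * u : ℕ) : ℚ) ^ j : ℚ) = (u : ℚ) := by
    apply (algebraMap ℚ A).injective
    rw [map_mul, map_pow, map_pow, map_natCast, map_natCast, hs, ← pow_mul,
      ← pow_succ', Nat.sub_add_cancel (by omega), hrpow, div_mul_cancel₀ _ (pow_ne_zero _ hnA)]
  have hs0 : s ≠ 0 := by
    rintro rfl
    rw [zero_pow (by positivity), zero_mul] at h1
    have : u = 0 := by exact_mod_cast h1.symm
    omega
  have hval : ∀ r : ℕ, r.Prime → (2 : ℤ) ^ (e - 1) * padicValRat r s +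
      j * (a * (padicValNat r p : ℤ) + padicValNat r u) = padicValNat r u := by
    intro r hr
    have : Fact r.Prime := ⟨hr⟩
    have h2 := congrArg (padicValRat r) h1
    rw [padicValRat.mul (pow_ne_zero _ hs0) (pow_ne_zero _ (by
      have : p ^ a * u ≠ 0 := by positivity
      exact_mod_cast this)), padicValRat.pow, padicValRat.pow, padicValRat.of_nat,
      padicValRat.of_nat, padicValNat.mul (by positivity) (by positivity), padicValNat.pow] at h2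
    push_cast at h2
    rw [padicValRat.of_nat, padicValRat.of_nat] at h2
    exact h2
  have hlp : l ≠ p := by
    rintro rfl
    exact hpu hlu
  have v1 := hval p hp
  have v2 := hval l hl
  have : Fact p.Prime := ⟨hp⟩
  have : Fact l.Prime := ⟨hl⟩
  rw [padicValNat_self, padicValNat.eq_zero_of_not_dvd hpu] at v1
  rw [padicValNat_primes hlp] at v2
  -- 2 ^ (e-1) ∣ j
  have d1 : (2 : ℤ) ^ (e - 1) ∣ (j : ℤ) * a := ⟨-padicValRat p s, by push_cast at v1; linarith⟩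
  have d2 : 2 ^ (e - 1) ∣ j * a := by exact_mod_cast d1
  have d3 : 2 ^ (e - 1) ∣ j :=
    (Nat.Coprime.pow_left _ (Nat.coprime_two_left.mpr ha)).dvd_of_dvd_mul_right d2
  obtain ⟨j', hj'⟩ := d3
  have d4 : (2 : ℤ) ^ (e - 1) ∣ (padicValNat l u : ℤ) := by
    refine ⟨padicValRat l s + j' * padicValNat l u, ?_⟩
    rw [hj', Nat.cast_mul, Nat.cast_pow, Nat.cast_ofNat, Nat.cast_zero, mul_zero, zero_add] at v2
    linarith
  have d5 : 2 ^ (e - 1) ∣ padicValNat l u := by exact_mod_cast d4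
  have d6 : 0 < padicValNat l u := by
    have := one_le_padicValNat_of_dvd (p := l) (n := u) (by omega) hlu
    omega
  exact absurd (Nat.le_of_dvd d6 d5) (by omega)

/-- step 3: moving an `ℓ`-th root -/
lemma step3 [IsAlgClosed A] [Algebra.IsAlgebraic ℚ A] (e L ℓ n0 : ℕ) (hL : 0 < L)
    (hℓ : Odd ℓ) (hℓL : ℓ ∣ L) (hn0 : 0 < n0) (hnp : ∀ s : ℚ, s ^ ℓ ≠ n0)
    (ζ w : A) (hζ : IsPrimitiveRoot ζ (2 ^ (e + 1) * L)) (c : A ≃ₐ[ℚ] A) (hcζ : c ζ = ζ⁻¹)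
    (hw : w ^ ℓ = n0) (hcw : c w = w) :
    ∃ τ : A ≃ₐ[ℚ] A, τ (ζ ^ 2) = ζ ^ 2 ∧ τ w ≠ w := by
  by_contra hcon
  push Not at hcon
  have hn0A : (n0 : A) ≠ 0 := by exact_mod_cast hn0.ne'
  have hℓ0 : ℓ ≠ 0 := by
    rintro rfl
    simp at hℓ
  have hw0 : w ≠ 0 := by
    intro h
    rw [h, zero_pow hℓ0] at hw
    exact hn0A hw.symm
  have hR := stepR ζ (2 ^ (e + 1) * L) (by positivity) hζ c hcζ w hw0
    (fun τ hτ => hcon τ (by rw [map_pow, hτ])) hcw (by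
      intro τ
      obtain ⟨b, hb⟩ := hℓL
      have : w ^ (2 ^ (e + 1) * L) = (n0 : A) ^ (2 ^ (e + 1) * b) := by
        rw [← hw, hb]; ring
      rw [this, map_pow, map_natCast])
  have : IsAlgClosure ℚ A := ⟨inferInstance, inferInstance⟩
  have hN : Normal ℚ A := IsAlgClosure.normal ℚ A
  have hG : IsGalois ℚ A := ⟨⟩
  have hs : w ^ 2 ∈ (⊥ : IntermediateField ℚ A) := by
    rw [InfiniteGalois.mem_bot_iff_fixed]
    intro τ
    rw [map_pow]
    rcases hR τ with h | h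
    · rw [h]
    · rw [h]; ring
  obtain ⟨s, hs⟩ := IntermediateField.mem_bot.mp hs
  obtain ⟨b, hb⟩ := hℓ
  have hs0 : s ≠ 0 := by
    rintro rfl
    rw [map_zero] at hs
    exact hw0 (pow_eq_zero_iff (two_ne_zero) |>.1 hs.symm)
  apply hnp (n0 / s ^ b)
  apply (algebraMap ℚ A).injective
  rw [map_pow, map_div₀, map_pow, map_natCast, hs, ← hw, ← pow_mul, div_pow, ← pow_mul, ← pow_mul,
    div_eq_iff (pow_ne_zero _ hw0), ← pow_add, hb]
  congr 1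
  ring

end gen

end Pool.Agent.T2H18.TW
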